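import Pool.Agent.Lib.MP_8622f1_pr.SpecIs

set_option autoImplicit false

open Classical Filter Topology

/-!
# Ising model on products `T □ H`, `T` a regular tree: definitions

`tree m` is the `(m+1)`-regular tree: two `m`-ary trees (lists of letters `Fin m`, the HEAD of the
list is the letter next to the root) whose roots `(false, [])` and `(true, [])` are joined by an
edge. `T2 G β x y` is the infinite volume free two point function.
-/

namespace MP8622

namespace RP

/-- two point function of a finite system -/
noncomputable def c2 {V : Type} (P : Sym2 V → ℝ) (E : Finset (Sym2 V)) (Λ : Finset V) (x y : V) :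
    ℝ := corr P E Λ (symmDiff {x} {y})

/-- infinite volume two point function, free boundary condition -/
noncomputable def T2 {V : Type} (G : SimpleGraph V) [G.LocallyFinite] (β : ℝ) (x y : V) : ℝ :=
  tf G β (symmDiff {x} {y})

/-- image of a finite set under an equivalence -/
noncomputable def im {V : Type} (θ : V ≃ V) (L : Finset V) : Finset V := L.map θ.toEmbedding

/-- vertices of the `(m+1)`-regular tree -/
abbrev W (m : ℕ) : Type := Bool × List (Fin m)

/-- adjacency in the rooted `m`-ary tree: a letter is added at the END of the list -/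
def LAdj {m : ℕ} (l l' : List (Fin m)) : Prop := ∃ a, l' = l ++ [a] ∨ l = l' ++ [a]

/-- the `(m+1)`-regular tree -/
def tree (m : ℕ) : SimpleGraph (W m) where
  Adj x y := (x.1 = y.1 ∧ LAdj x.2 y.2) ∨ (x.1 ≠ y.1 ∧ x.2 = [] ∧ y.2 = [])
  symm := ⟨by
    rintro x y (⟨h, a, h' | h'⟩ | ⟨h, h1, h2⟩)
    · exact Or.inl ⟨h.symm, a, Or.inr h'⟩
    · exact Or.inl ⟨h.symm, a, Or.inl h'⟩
    · exact Or.inr ⟨h.symm, h2, h1⟩⟩
  loopless := ⟨by
    rintro x (⟨-, a, h | h⟩ | ⟨h, -⟩)
    · have := congrArg List.length h
      simp at this
    · have := congrArg List.length h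
      simp at this
    · exact h rfl⟩

/-- reflection of the tree through the edge joining the two roots -/
def flp {m : ℕ} (x : W m) : W m := (!x.1, x.2)

/-- exchange of the branch `(true, _)` and the branch `(false, a :: _)` at the vertex
`(false, [])` -/
def rho {m : ℕ} (a : Fin m) : W m → W m
  | (true, l) => (false, a :: l)
  | (false, []) => (false, [])
  | (false, b :: l) => if b = a then (true, l) else (false, b :: l)

/-- exchange of the branches `(false, a :: _)` and `(false, b :: _)` at the vertex
`(false, [])` -/
def swp {m : ℕ} (a b : Fin m) : W m → W m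
  | (true, l) => (true, l)
  | (false, []) => (false, [])
  | (false, c :: l) => (false, Equiv.swap a b c :: l)

/-- distance in the rooted tree -/
def ld {m : ℕ} : List (Fin m) → List (Fin m) → ℕ
  | [], l' => l'.length
  | a :: l, [] => (a :: l).length
  | a :: l, b :: l' => if a = b then ld l l' else l.length + l'.length + 2

/-- distance in the `(m+1)`-regular tree -/
def dd {m : ℕ} (x y : W m) : ℕ :=
  if x.1 = y.1 then ld x.2 y.2 else x.2.length + y.2.length + 1

/-- a point at distance `n` from `(false, [])` -/
def pt0 {m : ℕ} (z : Fin m) (n : ℕ) : W m := (false, List.replicate n z)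

theorem flp_flp {m : ℕ} (x : W m) : flp (flp x) = x := by
  unfold flp
  simp

theorem rho_rho {m : ℕ} (a : Fin m) (x : W m) : rho a (rho a x) = x := by
  obtain ⟨b, l⟩ := x
  cases b with
  | true => simp [rho]
  | false =>
    cases l with
    | nil => rfl
    | cons c l =>
      by_cases h : c = a
      · simp [rho, h]
      · simp [rho, h]

theorem swp_swp {m : ℕ} (a b : Fin m) (x : W m) : swp a b (swp a b x) = x := by
  obtain ⟨c, l⟩ := x
  cases c with
  | true => rfl
  | false =>
    cases l with
    | nil => rfl
    | cons c l => simp [swp]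

/-- an involution as an equivalence -/
def inv {V : Type} (f : V → V) (h : ∀ x, f (f x) = x) : V ≃ V where
  toFun := f
  invFun := f
  left_inv := h
  right_inv := h

/-- `flp` on the product with a second graph -/
def eF (m : ℕ) (U : Type) : (W m × U) ≃ (W m × U) :=
  inv (fun x => (flp x.1, x.2)) (fun x => by simp [flp_flp])

/-- `rho a` on the product with a second graph -/
def eR {m : ℕ} (a : Fin m) (U : Type) : (W m × U) ≃ (W m × U) :=
  inv (fun x => (rho a x.1, x.2)) (fun x => by simp [rho_rho])

/-- `swp a b` on the product with a second graph -/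
def eS {m : ℕ} (a b : Fin m) (U : Type) : (W m × U) ≃ (W m × U) :=
  inv (fun x => (swp a b x.1, x.2)) (fun x => by simp [swp_swp])

/-- the quadratic form of the two point function between the fibres over `(false, [])` and over
the point `pt0 z n` at distance `n` -/
noncomputable def bn {m : ℕ} {U : Type} (G : SimpleGraph (W m × U)) [G.LocallyFinite] (β : ℝ)
    (z : Fin m) (n : ℕ) (K : Finset U) (f g : U → ℝ) : ℝ :=
  ∑ i ∈ K, ∑ j ∈ K, f i * g j * T2 G β ((false, []), i) (pt0 z n, j)

end RP

end MP8622
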