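import Pool.Agent.Lib.MP_8622f1_pr.RP.Defs

set_option autoImplicit false

open Classical Filter Topology SimpleGraph

/-!
# Ising model on products `T □ H` by reflection positivity: exact statements of the modules

THEOREM. `T` a `(m+1)`-regular tree, `m ≥ 2`, `H` any connected vertex transitive locally finite
graph (a point, finite or infinite), `G = T □ H`. Then `β_c < ∞` and there is `ε > 0` such that for
every `β < β_c + ε` the free two point function is bounded on `ℓ²(G)`; for all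
`β ∈ (β_c, β_c + ε)` the free state is not `(plus + minus)/2`.

PROOF. `T_n(i,j)` = free two point function of `((false,[]),i)` and `(pt0 n, j)` (HOM: it gives all
values). Reflection positivity through the edge of the tree (RPB) and through a vertex (RPS) gives
for `b_n = ∑ f_i f_j T_n(i,j)`: `b_n ≥ 0`, `b_{n+1}² ≤ b_n b_{n+2}`. Below `β_c` the susceptibility
is finite, so `m^n b_n` is bounded; log-convexity gives `m b_{n+1} ≤ b_n`. The infrared bound for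
ONE wall (WIR) gives `b_0 - b_1 ≤ |f|²/β`. Hence `b_n ≤ m^{-n} m/((m-1)β) |f|²` uniformly in
`β < β_c`, and `ℓ²` boundedness follows (TRK). A generalised Simon-Lieb inequality (GSL) carries it
beyond `β_c`.

Module NAME: file `Pool/Agent/Lib/MP_8622f1_pr/RP/<NAME>.lean` (import `..RP.Spec` and whatever
library file you use), `theorem specNAME (h : SpecOther) .. : SpecNAME` in namespace `MP8622.RP`,
own lemmas in namespace `MP8622.RP.NAMEM`. Library: `Basic.lean` (corr, Tf, tf, tp, GKS, maps),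
`Sl.lean` (`SlM.corr_insert`, `SlM.factor`, ..), `Isf.lean` (`tau`), `Isp.lean`, `Shp.lean`.
-/

namespace MP8622

namespace RP

/-! ### Finite systems -/

/-- GSL: generalised Simon-Lieb inequality (two coupling constants `P ≤ P'`).
Proof: induction on `E.card` as in `SlM.main`. If an edge `e = s(x, v) ∈ E` contains `x`, remove it
in both systems: with `t = P e/(2-P e) ≤ t'`, index 0 for the system without `e`,
`⟨xy⟩' (1 + t' ⟨xv⟩'_0) = ⟨xy⟩'_0 + t' ⟨vy⟩'_0` (`SlM.corr_insert`), apply the induction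
hypothesis at `x` and at `v`, write `t' = t + (t' - t)` and use
`⟨xu⟩_0 + t ⟨vu⟩_0 = ⟨xu⟩ (1 + t ⟨xv⟩_0)`, `⟨xv⟩_0 ≤ ⟨xv⟩'_0`, `⟨·⟩'_0 ≤ ⟨·⟩'`. If no edge contains
`x` the left side is `0` for `x ≠ y` (`SlM.corr_zero`), and `1 = ⟨xx⟩` for `x = y`. -/
def SpecGSL : Prop :=
  ∀ (V : Type) (P P' : Sym2 V → ℝ) (E : Finset (Sym2 V)) (Λ : Finset V),
    (∀ e, 0 ≤ P e) → (∀ e, P e ≤ P' e) → (∀ e, P' e ≤ 1) → (∀ e ∈ E, ¬ e.IsDiag) →
    (∀ e ∈ E, ∀ z ∈ e, z ∈ Λ) → ∀ x ∈ Λ, ∀ y ∈ Λ,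
      c2 P' E Λ x y ≤ c2 P E Λ x y +
        ∑ u ∈ Λ, ∑ v ∈ Λ, if s(u, v) ∈ E then
          (P' s(u, v) / (2 - P' s(u, v)) - P s(u, v) / (2 - P s(u, v))) *
            c2 P E Λ x u * c2 P' E Λ v y else 0

/-- EXQ: the kernel `exp (β x·y)` is positive semidefinite.
Proof: `exp = ∑ β^n (x·y)^n / n!`, and `(x·y)^n = ∑_{p : Fin n → C} ∏ x_{p j} ∏ y_{p j}`
(`Finset.sum_pow'` / `Finset.prod_univ_sum`), so the sum is a series of squares. -/
def SpecEXQ : Prop :=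
  ∀ (V α : Type) (C : Finset V) (S : Finset α) (s : α → V → ℝ) (g : α → ℝ) (β : ℝ), 0 ≤ β →
    0 ≤ ∑ a ∈ S, ∑ b ∈ S, g a * g b * Real.exp (β * ∑ x ∈ C, s a x * s b x)

/-- EXP: Gaussian domination. From EXQ with index set `S ⊕ S` (or `S ×ˢ {0,1}`), vectors `s_a + h`
and `s_a`, coefficients `g_a exp (-β h·s_a - β|h|²/2)` and `-g_a`: the quadratic form is
`2 ∑ g_a g_b exp (β s_a·s_b) (1 - exp (β h·(s_b - s_a) - β|h|²/2))`. -/
def SpecEXP : Prop :=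
  ∀ (V α : Type) (C : Finset V) (S : Finset α) (s : α → V → ℝ) (g : α → ℝ) (h : V → ℝ) (β : ℝ),
    0 ≤ β →
    ∑ a ∈ S, ∑ b ∈ S, g a * g b * Real.exp (β * ∑ x ∈ C, s a x * s b x) *
        Real.exp (β * ∑ x ∈ C, h x * (s a x - s b x)) ≤
      Real.exp (β / 2 * ∑ x ∈ C, h x ^ 2) *
        ∑ a ∈ S, ∑ b ∈ S, g a * g b * Real.exp (β * ∑ x ∈ C, s a x * s b x)

/-- `θ` is a reflection of the finite system `(E, L ∪ θL)` through bonds: every edge is inside `L`,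
inside `θL`, or of the form `s(x, θx)`. -/
structure Bnd {V : Type} (θ : V ≃ V) (L : Finset V) (E : Finset (Sym2 V)) : Prop where
  invol : ∀ x, θ (θ x) = x
  disj : ∀ x ∈ L, θ x ∉ L
  inv : ∀ e, e.map θ ∈ E ↔ e ∈ E
  edge : ∀ x y, s(x, y) ∈ E → (x ∈ L ∧ y ∈ L) ∨ (θ x ∈ L ∧ θ y ∈ L) ∨
    (y = θ x ∧ (x ∈ L ∨ y ∈ L))

/-- CFG: the weights of a system with a bond reflection. A set `S ⊆ L ∪ θL` is
`S₁ ∪ θS₂`, `S₁, S₂ ⊆ L`; weight = `w(S₁) w(S₂) ∏_{x ∈ C} κ`, `C = {x ∈ L : s(x, θx) ∈ E}`,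
`κ = 1` if `x` is in both or in none of `S₁, S₂`, else `1 - p`; here `w(S) = sw (edges inside L)`.
`chi {θ y} (S₁ ∪ θS₂) = chi {y} S₂`. -/
def SpecCFG : Prop :=
  ∀ (V : Type) (θ : V ≃ V) (L : Finset V) (E : Finset (Sym2 V)) (p : ℝ), Bnd θ L E →
    ∀ F : Finset V → ℝ,
    ∑ S ∈ (L ∪ im θ L).powerset, F S * sw (fun _ => p) E S =
      ∑ S₁ ∈ L.powerset, ∑ S₂ ∈ L.powerset, F (S₁ ∪ im θ S₂) *
        (sw (fun _ => p) (ein E L) S₁ * sw (fun _ => p) (ein E L) S₂ *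
          ∏ x ∈ L.filter (fun x => s(x, θ x) ∈ E), if (x ∈ S₁ ↔ x ∈ S₂) then (1 : ℝ) else 1 - p)

/-- RPB: reflection positivity through bonds (from CFG).
Proof: `κ = (2-p)/2 (1 + t s_x s'_x)`, expand the product over `C` (`Finset.prod_one_add`), the sum
is a sum over `A ⊆ C` of `t^|A|` times a square. -/
def SpecRPB : Prop :=
  ∀ (V : Type) (θ : V ≃ V) (L : Finset V) (E : Finset (Sym2 V)) (p : ℝ), 0 ≤ p → p ≤ 1 →
    Bnd θ L E → ∀ c : V → ℝ,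
      0 ≤ ∑ x ∈ L, ∑ y ∈ L, c x * c y * c2 (fun _ => p) E (L ∪ im θ L) x (θ y)

/-- WIR: infrared bound for one wall (from CFG and EXP).
Proof: with `p = pr β`, `κ = exp (-β) exp (β s s')`. EXP (with `g = w`, `s_a ∈ {±1}^C`, vector
`λ h`) and symmetry give `⟨cosh (βλ h·(s - s'))⟩ ≤ exp (βλ²|h|²/2)`, and `cosh u ≥ 1 + u²/2`; take
`βλ²|h|²/2 = 1`: `⟨(h·(s-s'))²⟩ ≤ (e-1)|h|²/β ≤ 2|h|²/β`; the left side is
`2 ∑∑ h_x h_y (⟨s_x s_y⟩ - ⟨s_x s_{θy}⟩)`. -/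
def SpecWIR : Prop :=
  ∀ (V : Type) (θ : V ≃ V) (L : Finset V) (E : Finset (Sym2 V)) (β : ℝ), 0 < β → Bnd θ L E →
    ∀ (C : Finset V) (h : V → ℝ), C ⊆ L → (∀ x ∈ C, s(x, θ x) ∈ E) →
      ∑ x ∈ C, ∑ y ∈ C, h x * h y * (c2 (fun _ => pr β) E (L ∪ im θ L) x y -
        c2 (fun _ => pr β) E (L ∪ im θ L) x (θ y)) ≤ 1 / β * ∑ x ∈ C, h x ^ 2

/-- RPS: reflection positivity through sites: `θ` fixes the points of `M`, every edge is inside
`M ∪ L` or inside `M ∪ θL`.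
Proof: `S = S₀ ∪ S₁ ∪ θS₂`, `S₀ ⊆ M`, `S₁, S₂ ⊆ L`; weight = `w_M(S₀) w(S₀,S₁) w(S₀,S₂)`, `w` = the
product over the edges inside `M ∪ L` but not inside `M`; the sum is
`∑_{S₀} w_M(S₀) (∑_{S₁} w(S₀,S₁) ∑_x c_x s_x)²`. -/
def SpecRPS : Prop :=
  ∀ (V : Type) (θ : V ≃ V) (M L : Finset V) (E : Finset (Sym2 V)) (p : ℝ), 0 ≤ p → p ≤ 1 →
    (∀ x, θ (θ x) = x) → (∀ x ∈ M, θ x = x) → (∀ x ∈ L, θ x ∉ L) →
    (∀ e : Sym2 V, e.map θ ∈ E ↔ e ∈ E) →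
    (∀ x y, s(x, y) ∈ E → (x ∈ M ∪ L ∧ y ∈ M ∪ L) ∨ (θ x ∈ M ∪ L ∧ θ y ∈ M ∪ L)) →
    ∀ c : V → ℝ, 0 ≤ ∑ x ∈ M ∪ L, ∑ y ∈ M ∪ L,
      c x * c y * c2 (fun _ => p) E (M ∪ L ∪ im θ L) x (θ y)

/-! ### Infinite volume -/

/-- `θ` is a bond reflection of the graph `G`, `A` a half space. -/
structure Ref {V : Type} (G : SimpleGraph V) (θ : V ≃ V) (A : Set V) : Prop where
  invol : ∀ x, θ (θ x) = x
  aut : IsAut G θ
  half : ∀ x, θ x ∈ A ↔ x ∉ A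
  edge : ∀ x y, G.Adj x y → x ∈ A → y ∉ A → y = θ x

/-- IRB (from RPB). Proof: the sets `Λ ∪ θΛ` tend to infinity; `L' = (Λ ∪ θΛ) ∩ A`,
`E = ed0 G (Λ ∪ θΛ)`; use `tendsto_Tf` along `Λ ↦ Λ ∪ θΛ`. -/
def SpecIRB : Prop :=
  ∀ (V : Type) (G : SimpleGraph V) [G.LocallyFinite] (θ : V ≃ V) (A : Set V) (β : ℝ), 0 ≤ β →
    Ref G θ A → ∀ (L : Finset V) (c : V → ℝ), (∀ x ∈ L, x ∈ A) →
      0 ≤ ∑ x ∈ L, ∑ y ∈ L, c x * c y * T2 G β x (θ y)

/-- IIR (from WIR), in the same way. -/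
def SpecIIR : Prop :=
  ∀ (V : Type) (G : SimpleGraph V) [G.LocallyFinite] (θ : V ≃ V) (A : Set V) (β : ℝ), 0 < β →
    Ref G θ A → ∀ (C : Finset V) (h : V → ℝ), (∀ x ∈ C, x ∈ A ∧ G.Adj x (θ x)) →
      ∑ x ∈ C, ∑ y ∈ C, h x * h y * (T2 G β x y - T2 G β x (θ y)) ≤ 1 / β * ∑ x ∈ C, h x ^ 2

/-- IRS (from RPS). `A`, `θA` and the set of fixed points of `θ` are a partition of `V`, and no
edge joins `A` and `θA`. -/
def SpecIRS : Prop :=
  ∀ (V : Type) (G : SimpleGraph V) [G.LocallyFinite] (θ : V ≃ V) (A : Set V) (β : ℝ), 0 ≤ β →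
    (∀ x, θ (θ x) = x) → IsAut G θ → (∀ x ∈ A, θ x ∉ A) → (∀ x, x ∈ A ∨ θ x ∈ A ∨ θ x = x) →
    (∀ x y, G.Adj x y → x ∈ A → θ y ∉ A) →
    ∀ (L : Finset V) (c : V → ℝ), (∀ x ∈ L, x ∈ A ∨ θ x = x) →
      0 ≤ ∑ x ∈ L, ∑ y ∈ L, c x * c y * T2 G β x (θ y)

/-! ### The tree -/

/-- ATF: `eF` is a bond reflection of `tree m □ H`, and its wall consists of the edges over the
edge of the roots. -/
def SpecATF : Prop :=
  ∀ (m : ℕ) (U : Type) (H : SimpleGraph U),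
    Ref (tree m □ H) (eF m U) {x | x.1.1 = false} ∧
    ∀ i : U, (tree m □ H).Adj (((false, []) : W m), i) (eF m U ((false, []), i))

/-- ATR: the other automorphisms of `tree m □ H`. -/
def SpecATR : Prop :=
  ∀ (m : ℕ) (U : Type) (H : SimpleGraph U),
    (∀ a : Fin m, IsAut (tree m □ H) (eR a U)) ∧
    (∀ a b : Fin m, IsAut (tree m □ H) (eS a b U)) ∧
    ∀ a b : Fin m, a ≠ b → ∀ x y : W m × U, (tree m □ H).Adj x y →
      (∃ l, x.1 = (false, a :: l)) → ¬ ∃ l, y.1 = (false, b :: l)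

/-- ATT: `tree m □ H` is transitive if `H` is (from ATF, ATR).
Proof: `(true, l) → (false, l)` by the flip; `(false, a :: l) → (true, l)` by `rho a`; induction. -/
def SpecATT : Prop :=
  ∀ (m : ℕ) (U : Type) (H : SimpleGraph U), (∀ i j : U, ∃ g : U ≃ U, IsAut H g ∧ g i = j) →
    ∀ x y : W m × U, ∃ g : (W m × U) ≃ (W m × U), IsAut (tree m □ H) g ∧ g x = y

/-- HOM: a function of two vertices of the tree invariant under `flp` and all `rho a` depends only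
on the distance.
Proof: (1) `F (false, a::u) (true, v) = F (false, u) (true, a::v)` (`rho a`, then `flp`); (2) for
`a ≠ b` `F (false, a::u) (true, v) = F (false, b::u) (true, v)` (`rho a`, `rho b`, `rho a`); the
same with the roles of the arguments exchanged; hence `F (false, u) (true, v)` and
`F (true, u) (false, v)` are `g (|u| + |v|)`, `g N = F (false, []) (true, replicate N z)`, and
`g N = F (false, []) (false, replicate (N+1) z)` by `rho z`. (3) Same side: if the heads are equal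
remove them by `rho a` and `flp`; if the heads are `a ≠ b` apply `rho b`; if one list is empty
apply `rho`. -/
def SpecHOM : Prop :=
  ∀ (m : ℕ) (z : Fin m) (F : W m → W m → ℝ),
    (∀ x y, F (flp x) (flp y) = F x y) → (∀ (a : Fin m) (x y), F (rho a x) (rho a y) = F x y) →
    ∀ x y, F x y = F (false, []) (pt0 z (dd x y))

/-- TRK: the kernel `m^{-d(x,y)}` is bounded on `ℓ²` of the tree.
Proof: `m^{-ld l l'} ≤ ∑_{j ≤ |l|, |l'|; take j l = take j l'} m^{-(|l|-j)} m^{-(|l'|-j)}`, and for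
different sides `m^{-d} ≤ m^{-|l|} m^{-|l'|}`. For each `j` the quadratic form is a sum over the
words `c` of length `j` of `(∑_{l ⊇ c} m^{-(|l|-j)} φ l)² ≤ (∑_{l ⊇ c} m^{-3(|l|-j)/2})
(∑_{l ⊇ c} m^{-(|l|-j)/2} (φ l)²)`, the first factor is `≤ ∑_n m^{-n/2}` since at most `m^n` words
of length `j + n` extend `c`. Sum over `j`. -/
def SpecTRK : Prop :=
  ∀ m : ℕ, 2 ≤ m → ∃ K : ℝ, 0 < K ∧ ∀ (S : Finset (W m)) (φ : W m → ℝ), (∀ x, 0 ≤ φ x) →
    ∑ x ∈ S, ∑ y ∈ S, φ x * φ y * ((m : ℝ)⁻¹) ^ dd x y ≤ K * ∑ x ∈ S, φ x ^ 2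

/-! ### The sequence `b_n` -/

/-- INV: the two point function on `tree m □ H` depends only on the distance in the tree (from
ATF, ATR, HOM and `tf_map`). -/
def SpecINV : Prop :=
  ∀ (m : ℕ) (z : Fin m) (U : Type) (H : SimpleGraph U) [(tree m □ H).LocallyFinite] (β : ℝ),
    ∀ (x y : W m) (i j : U), T2 (tree m □ H) β (x, i) (y, j) =
      T2 (tree m □ H) β ((false, []), i) (pt0 z (dd x y), j)

/-- BNN: the properties of `b_n` (from IRB, IRS, ATF, ATR, INV). For `z ≠ z'`: bond reflection: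
points `(pt0 z n, i)`, images `((true, replicate n z), j)`, distance `n + n' + 1`; site reflection
`swp z z'` with `A = {(false, z :: _)}`: points `(pt0 z n, i)`, `n ≥ 0`, distance `n + n'`.
Cauchy-Schwarz for the positive semidefinite forms. -/
def SpecBNN : Prop :=
  ∀ (m : ℕ) (z z' : Fin m), z ≠ z' → ∀ (U : Type) (H : SimpleGraph U)
    [(tree m □ H).LocallyFinite] (β : ℝ), 0 ≤ β → ∀ (K : Finset U) (f g : U → ℝ) (n : ℕ),
      0 ≤ bn (tree m □ H) β z n K f f ∧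
      bn (tree m □ H) β z n K f g ^ 2 ≤
        bn (tree m □ H) β z n K f f * bn (tree m □ H) β z n K g g ∧
      bn (tree m □ H) β z (n + 1) K f f ^ 2 ≤
        bn (tree m □ H) β z n K f f * bn (tree m □ H) β z (n + 2) K f f

/-- WAL: `b_0 - b_1 ≤ |f|²/β` (from IIR, ATF, INV). -/
def SpecWAL : Prop :=
  ∀ (m : ℕ) (z : Fin m) (U : Type) (H : SimpleGraph U) [(tree m □ H).LocallyFinite] (β : ℝ),
    0 < β → ∀ (K : Finset U) (f : U → ℝ),
      bn (tree m □ H) β z 0 K f f - bn (tree m □ H) β z 1 K f f ≤ 1 / β * ∑ i ∈ K, f i ^ 2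

/-- LCX: a log-convex sequence with `m^n b_n` bounded satisfies `m b_{n+1} ≤ b_n`. -/
def SpecLCX : Prop :=
  ∀ (b : ℕ → ℝ) (m C : ℝ), 0 < m → (∀ n, 0 ≤ b n) → (∀ n, b (n + 1) ^ 2 ≤ b n * b (n + 2)) →
    (∀ n, m ^ n * b n ≤ C) → ∀ n, m * b (n + 1) ≤ b n

/-- SHA: sharpness on a transitive graph (from `SpecShp`; compare `specISP`, `AHP.specSUBC`): if
the magnetisation vanishes at some `β' > β`, the susceptibility is finite at `β`.
Proof: let `φ_b(S) = ∑_{u ∈ S} tau G (pr b) S o u * #{v ∉ S : v ~ u}` (`= psi`). If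
`1 ≤ t φ_b(S)`.. for all `b > β` and `S ∋ o`, then `SpecShp` gives `tp G β' {o} ≥ 1 - exp (β-β') > 0`
(by transitivity the same at every vertex). Otherwise there are `b ≥ β`, `S ∋ o` with `φ_b(S) < 1`;
`SpecSL` and transitivity: `∑_z tau Λ x z ≤ |S| + φ_b(S) max_y ∑_z tau Λ y z`. -/
def SpecSHA : Prop :=
  ∀ (V : Type) (G : SimpleGraph V) [G.LocallyFinite],
    (∀ x y : V, ∃ g : V ≃ V, IsAut G g ∧ g x = y) → ∀ (o : V) (β β' : ℝ), 0 ≤ β → β < β' →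
    tp G β' {o} = 0 →
    ∃ B : ℝ, ∀ (Λ : Finset V) (x : V), ∑ z ∈ Λ, tau G (pr β) Λ x z ≤ B

/-- DEC (from INV): finite susceptibility gives `m^n T_n ≤ B` (there are `m^n` points
`(false, l)`, `|l| = n`, at distance `n` from `(false, [])`). -/
def SpecDEC : Prop :=
  ∀ (m : ℕ) (z : Fin m) (U : Type) (H : SimpleGraph U) [(tree m □ H).LocallyFinite] (β B : ℝ),
    0 ≤ β →
    (∀ (Λ : Finset (W m × U)) (x : W m × U), ∑ y ∈ Λ, tau (tree m □ H) (pr β) Λ x y ≤ B) →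
    ∀ (n : ℕ) (i j : U), (m : ℝ) ^ n * T2 (tree m □ H) β ((false, []), i) (pt0 z n, j) ≤ B

/-- UNB: uniform bound (from BNN, WAL, LCX, SHA, DEC, ATT). -/
def SpecUNB : Prop :=
  ∀ (m : ℕ) (z z' : Fin m), z ≠ z' → ∀ (U : Type) (H : SimpleGraph U)
    [(tree m □ H).LocallyFinite], (∀ i j : U, ∃ g : U ≃ U, IsAut H g ∧ g i = j) →
    ∀ (o : W m × U) (β β' : ℝ), 0 < β → β < β' → tp (tree m □ H) β' {o} = 0 →
    ∀ (n : ℕ) (K : Finset U) (f : U → ℝ),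
      (m : ℝ) ^ n * bn (tree m □ H) β z n K f f ≤
        (m : ℝ) / ((m : ℝ) - 1) * (1 / β) * ∑ i ∈ K, f i ^ 2

/-- OPB: the operator bound (from UNB, BNN, INV, TRK): the constant depends only on `m` and on a
lower bound for `β`. For a finite set of vertices of the product group by the first coordinate:
`∑_{x,y} ∑_{i,j} f(x,i) T(..) g(y,j) ≤ ∑_{x,y} c m^{-d(x,y)} |f_x| |g_y|`. -/
def SpecOPB : Prop :=
  ∀ (m : ℕ), 2 ≤ m → ∀ (U : Type) (H : SimpleGraph U)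
    [(tree m □ H).LocallyFinite], (∀ i j : U, ∃ g : U ≃ U, IsAut H g ∧ g i = j) →
    ∀ b₀ : ℝ, 0 < b₀ → ∃ B : ℝ, 0 < B ∧ ∀ (o : W m × U) (β β' : ℝ), b₀ ≤ β → β < β' →
      tp (tree m □ H) β' {o} = 0 → ∀ Λ : Finset (W m × U),
        AHP.OB 2 (tau (tree m □ H) (pr β) Λ) B

/-- PSS: passing beyond (from GSL): `δ` depends only on `B` and on the maximal degree.
Proof: `τ' ≤ τ + δ τ A τ'` entrywise, `δ = t' - t`, so
`|τ' v|² ≤ 2 |τ v|² + 2 δ² |τ A τ' v|² ≤ 2 B |v|² + 2 δ² B D² |τ' v|²`; choose `2 δ² B D² ≤ 1/2`. -/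
def SpecPSS : Prop :=
  ∀ (D : ℕ) (B : ℝ), 0 < B → ∃ δ : ℝ, 0 < δ ∧ ∀ (V : Type) (G : SimpleGraph V)
    [G.LocallyFinite], (∀ x, (G.neighborFinset x).card ≤ D) → ∀ β β' : ℝ, 0 ≤ β → β ≤ β' →
    β' ≤ β + δ → (∀ Λ : Finset V, AHP.OB 2 (tau G (pr β) Λ) B) →
    ∀ Λ : Finset V, AHP.OB 2 (tau G (pr β') Λ) (4 * B)

/-- FIN: the main theorem on the model of the tree (from UNB, OPB, PSS, ATT).
Proof: let `βc = inf {β > 0 : 0 < tp G β {o}}`. For `0 < β < β'` with `tp G β' {o} = 0` UNB with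
`f = 1` at one point gives `1 ≤ m/((m-1)β)`, so the set is nonempty; it is bounded below by a
positive number (high temperature: `tp = 0` for small `β`, e.g. by `IspM.sub`-like argument or by
`SpecSL` with `S = {o}`: `tp ≤ t D tp`, `t D < 1`). Monotonicity of `tp` in `β`. -/
def SpecFIN : Prop :=
  ∀ (m : ℕ), 2 ≤ m → ∀ (U : Type) (H : SimpleGraph U)
    [(tree m □ H).LocallyFinite], (∀ i j : U, ∃ g : U ≃ U, IsAut H g ∧ g i = j) →
    ∀ o : W m × U, ∃ βc b B : ℝ, 0 < βc ∧ βc < b ∧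
      (∀ β : ℝ, 0 < β → β < βc → tp (tree m □ H) β {o} = 0) ∧
      (∀ β : ℝ, βc < β → 0 < tp (tree m □ H) β {o}) ∧
      ∀ β : ℝ, 0 ≤ β → β ≤ b → ∀ Λ : Finset (W m × U),
        AHP.OB 2 (tau (tree m □ H) (pr β) Λ) B

/-! ### Abstract regular trees -/

/-- TRE: a regular tree of degree `m + 1` is isomorphic to `tree m`. -/
def SpecTRE : Prop :=
  ∀ (X : Type) (T : SimpleGraph X) (m : ℕ), 1 ≤ m → T.IsTree →
    (∀ x, (T.neighborSet x).ncard = m + 1) →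
    ∃ e : X ≃ W m, ∀ x y, T.Adj x y ↔ (tree m).Adj (e x) (e y)

/-- TRN: transport along an isomorphism of graphs. -/
def SpecTRN : Prop :=
  ∀ (V V' : Type) (e : V ≃ V') (G : SimpleGraph V) (G' : SimpleGraph V') [G.LocallyFinite]
    [G'.LocallyFinite], (∀ x y, G.Adj x y ↔ G'.Adj (e x) (e y)) →
    (∀ (p : ℝ) (Λ : Finset V) (x y : V),
      tau G p Λ x y = tau G' p (Λ.map e.toEmbedding) (e x) (e y)) ∧
    ∀ (β : ℝ) (x : V), tp G β {x} = tp G' β {e x}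

/-- END: the final statement (from FIN, TRE, TRN; compare `isFin`, `AhM.exists_small`). -/
def SpecEND : Prop :=
  ∀ (V X U : Type) (G : SimpleGraph V) [G.LocallyFinite] (T : SimpleGraph X) (H : SimpleGraph U)
    (_ : G ≃g T □ H) (k : ℕ), 3 ≤ k → T.IsTree → (∀ x, (T.neighborSet x).ncard = k) →
    (∀ i j : U, ∃ g : U ≃ U, IsAut H g ∧ g i = j) →
    ∀ (o : V) (σ : ℝ → Finset V → Finset V → V → ℝ),
      (∀ (h : ℝ) (Λ S : Finset V) (x : V),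
          σ h Λ S x = if x ∈ Λ then (if x ∈ S then (1 : ℝ) else -1) else h) →
    ∀ E : ℝ → Finset V → Finset V → ℝ,
      (∀ (h : ℝ) (Λ S : Finset V),
          E h Λ S = ∑ x ∈ Λ, ∑ y ∈ G.neighborFinset x,
            (if y ∈ Λ then (1 / 2 : ℝ) else 1) * σ h Λ S x * σ h Λ S y) →
    ∀ C : ℝ → ℝ → Finset V → Finset V → ℝ,
      (∀ (β h : ℝ) (A Λ : Finset V),
          C β h A Λ =
            (∑ S ∈ Λ.powerset, (∏ x ∈ A, σ h Λ S x) * Real.exp (β * E h Λ S)) /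
              ∑ S ∈ Λ.powerset, Real.exp (β * E h Λ S)) →
    (∃ β : ℝ, 0 < β ∧ ∃ p : ℝ, 0 < p ∧
      Tendsto (fun Λ : Finset V => C β 1 {o} Λ) atTop (𝓝 p)) ∧
    ∃ ε : ℝ, 0 < ε ∧ ∀ β : ℝ,
      sInf {β : ℝ | 0 < β ∧ ∃ p : ℝ, 0 < p ∧
        Tendsto (fun Λ : Finset V => C β 1 {o} Λ) atTop (𝓝 p)} < β →
      β < sInf {β : ℝ | 0 < β ∧ ∃ p : ℝ, 0 < p ∧
        Tendsto (fun Λ : Finset V => C β 1 {o} Λ) atTop (𝓝 p)} + ε →
      (∃ τ : V → V → ℝ, (∀ x, τ x x = 1) ∧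
        (∀ x y, x ≠ y → Tendsto (fun Λ : Finset V => C β 0 {x, y} Λ) atTop (𝓝 (τ x y))) ∧
        ∃ B : ℝ, ∀ (S R : Finset V) (f : V → ℝ),
          ∑ x ∈ R, (∑ y ∈ S, τ x y * f y) ^ 2 ≤ B * ∑ y ∈ S, f y ^ 2) ∧
      ∃ A : Finset V, ∃ a p m : ℝ,
        Tendsto (fun Λ : Finset V => C β 0 A Λ) atTop (𝓝 a) ∧
        Tendsto (fun Λ : Finset V => C β 1 A Λ) atTop (𝓝 p) ∧
        Tendsto (fun Λ : Finset V => C β (-1) A Λ) atTop (𝓝 m) ∧
        a ≠ (p + m) / 2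

end RP

end MP8622
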