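import Pool.Agent.Lib.MP_8622f1_pr.SpecIs
import Pool.Agent.Lib.MP_8622f1_pr.RP.Spec
import Pool.Agent.Lib.MP_8622f1_pr.NU.FLD

section
set_option autoImplicit false

open Classical Filter Topology MeasureTheory

/-!
Module COV of the joint project on Ising and percolation on acylindrically hyperbolic groups:
covariance of an increasing event with the event that an edge is open, for the weights `fwt`.
-/

namespace MP8622

namespace CovM

variable {V : Type}

theorem fwt_eq (θ : ℕ) (P : Sym2 V → ℝ) (E ω : Finset (Sym2 V)) (Λ : Finset V) :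
    fwt θ P E Λ ω = bw P E ω * ((Hs Λ ω).card : ℝ) ^ θ := rfl

theorem fwt_nonneg {θ : ℕ} {P : Sym2 V → ℝ} (h0 : ∀ e, 0 ≤ P e) (h1 : ∀ e, P e ≤ 1)
    (E : Finset (Sym2 V)) (Λ : Finset V) (ω : Finset (Sym2 V)) : 0 ≤ fwt θ P E Λ ω :=
  mul_nonneg (bw_nonneg h0 h1 E ω) (by positivity)

theorem sum_bw (P : Sym2 V → ℝ) (E : Finset (Sym2 V)) : ∑ ω ∈ E.powerset, bw P E ω = 1 := by
  have h := Finset.prod_add P (fun e => 1 - P e) E
  have h2 : ∏ e ∈ E, (P e + (1 - P e)) = 1 := Finset.prod_eq_one fun e _ => by ring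
  rw [h2] at h
  rw [h]
  rfl

theorem one_le_card_pow (θ : ℕ) (Λ : Finset V) (ω : Finset (Sym2 V)) :
    (1 : ℝ) ≤ ((Hs Λ ω).card : ℝ) ^ θ := by
  have h : (1 : ℝ) ≤ ((Hs Λ ω).card : ℝ) := by exact_mod_cast card_Hs_pos Λ ω
  exact one_le_pow₀ h

theorem bw_le_fwt {θ : ℕ} {P : Sym2 V → ℝ} (h0 : ∀ e, 0 ≤ P e) (h1 : ∀ e, P e ≤ 1)
    (E : Finset (Sym2 V)) (Λ : Finset V) (ω : Finset (Sym2 V)) : bw P E ω ≤ fwt θ P E Λ ω := by
  rw [fwt_eq]
  exact le_mul_of_one_le_right (bw_nonneg h0 h1 E ω) (one_le_card_pow θ Λ ω)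

theorem Zt_pos {P : Sym2 V → ℝ} (θ : ℕ) (h0 : ∀ e, 0 ≤ P e) (h1 : ∀ e, P e ≤ 1)
    (E : Finset (Sym2 V)) (Λ : Finset V) : 0 < ∑ ω ∈ E.powerset, fwt θ P E Λ ω := by
  have h : ∑ ω ∈ E.powerset, bw P E ω ≤ ∑ ω ∈ E.powerset, fwt θ P E Λ ω :=
    Finset.sum_le_sum fun ω _ => bw_le_fwt h0 h1 E Λ ω
  rw [sum_bw] at h
  linarith

/-- the lattice condition for the weights `fwt` -/
theorem fwt_mul_le {θ : ℕ} {P : Sym2 V → ℝ} (h0 : ∀ e, 0 ≤ P e) (h1 : ∀ e, P e ≤ 1)
    {E : Finset (Sym2 V)} {Λ : Finset V} {a b : Finset (Sym2 V)} (ha : a ⊆ E) (hb : b ⊆ E) :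
    fwt θ P E Λ a * fwt θ P E Λ b ≤ fwt θ P E Λ (a ∩ b) * fwt θ P E Λ (a ∪ b) := by
  have e2 := bw_mul_le h0 (fun e => le_refl (P e)) h1 ha hb
  have e3 : ((Hs Λ a).card : ℝ) * ((Hs Λ b).card : ℝ) ≤
      ((Hs Λ (a ∩ b)).card : ℝ) * ((Hs Λ (a ∪ b)).card : ℝ) := by
    exact_mod_cast card_Hs_mul_le (Finset.Subset.refl Λ) a b
  have e4 : (((Hs Λ a).card : ℝ) * ((Hs Λ b).card : ℝ)) ^ θ ≤
      (((Hs Λ (a ∩ b)).card : ℝ) * ((Hs Λ (a ∪ b)).card : ℝ)) ^ θ :=
    pow_le_pow_left₀ (by positivity) e3 θ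
  simp only [fwt_eq]
  calc bw P E a * ((Hs Λ a).card : ℝ) ^ θ * (bw P E b * ((Hs Λ b).card : ℝ) ^ θ)
      = (bw P E a * bw P E b) * (((Hs Λ a).card : ℝ) * ((Hs Λ b).card : ℝ)) ^ θ := by
        rw [mul_pow]; ring
    _ ≤ (bw P E (a ∩ b) * bw P E (a ∪ b)) *
        (((Hs Λ (a ∩ b)).card : ℝ) * ((Hs Λ (a ∪ b)).card : ℝ)) ^ θ := by
        refine mul_le_mul e2 e4 (by positivity) ?_
        exact mul_nonneg (bw_nonneg h0 h1 _ _) (bw_nonneg h0 h1 _ _)
    _ = _ := by rw [mul_pow]; ring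

/-- positive association -/
theorem fkg {θ : ℕ} {P : Sym2 V → ℝ} (h0 : ∀ e, 0 ≤ P e) (h1 : ∀ e, P e ≤ 1)
    (E : Finset (Sym2 V)) (Λ : Finset V) (f g : Finset (Sym2 V) → ℝ) (hf : ∀ a, 0 ≤ f a)
    (hg : ∀ a, 0 ≤ g a) (hfm : ∀ a b, a ⊆ b → b ⊆ E → f a ≤ f b)
    (hgm : ∀ a b, a ⊆ b → b ⊆ E → g a ≤ g b) :
    pt θ P E Λ f * pt θ P E Λ g ≤ pt θ P E Λ (fun ω => f ω * g ω) := by
  have hZ := Zt_pos θ h0 h1 E Λ
  unfold pt
  rw [div_mul_div_comm, div_le_div_iff₀ (mul_pos hZ hZ) hZ]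
  have := Finset.four_functions_theorem (f₁ := fun ω => f ω * fwt θ P E Λ ω)
    (f₂ := fun ω => g ω * fwt θ P E Λ ω) (f₃ := fun ω => fwt θ P E Λ ω)
    (f₄ := fun ω => f ω * g ω * fwt θ P E Λ ω) E
    (fun ω => mul_nonneg (hf ω) (fwt_nonneg h0 h1 E Λ ω))
    (fun ω => mul_nonneg (hg ω) (fwt_nonneg h0 h1 E Λ ω))
    (fun ω => fwt_nonneg h0 h1 E Λ ω)
    (fun ω => mul_nonneg (mul_nonneg (hf ω) (hg ω)) (fwt_nonneg h0 h1 E Λ ω)) ?_
    (Finset.Subset.refl E.powerset) (Finset.Subset.refl E.powerset)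
  · rw [Finset.powerset_infs_powerset_self, Finset.powerset_sups_powerset_self] at this
    have h3 := mul_le_mul_of_nonneg_right this hZ.le
    calc _ ≤ _ := h3
      _ = _ := by ring
  · intro a ha b hb
    show f a * fwt θ P E Λ a * (g b * fwt θ P E Λ b) ≤
      fwt θ P E Λ (a ∩ b) * (f (a ∪ b) * g (a ∪ b) * fwt θ P E Λ (a ∪ b))
    have hab : a ∪ b ⊆ E := Finset.union_subset ha hb
    have e1 : f a * g b ≤ f (a ∪ b) * g (a ∪ b) :=
      mul_le_mul (hfm a (a ∪ b) Finset.subset_union_left hab)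
        (hgm b (a ∪ b) Finset.subset_union_right hab) (hg b) (hf _)
    calc f a * fwt θ P E Λ a * (g b * fwt θ P E Λ b)
        = (f a * g b) * (fwt θ P E Λ a * fwt θ P E Λ b) := by ring
      _ ≤ (f (a ∪ b) * g (a ∪ b)) * (fwt θ P E Λ (a ∩ b) * fwt θ P E Λ (a ∪ b)) :=
          mul_le_mul e1 (fwt_mul_le h0 h1 ha hb)
            (mul_nonneg (fwt_nonneg h0 h1 _ _ _) (fwt_nonneg h0 h1 _ _ _))
            (mul_nonneg (hf _) (hg _))
      _ = _ := by ring

theorem mono_mk {S : Finset V} {a b : V} : Mono S s(a, b) ↔ (a ∈ S ↔ b ∈ S) := by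
  unfold Mono
  simp only [Sym2.mem_iff]
  constructor
  · intro h; exact h a (Or.inl rfl) b (Or.inr rfl)
  · rintro h x (rfl | rfl) y (rfl | rfl)
    · exact Iff.rfl
    · exact h
    · exact h.symm
    · exact Iff.rfl

theorem symmDiff_mono {S T : Finset V} {e : Sym2 V} (hS : ¬ Mono S e) (hT : ¬ Mono T e) :
    Mono (symmDiff S T) e := by
  induction e using Sym2.ind with
  | _ a b =>
    rw [mono_mk] at hS hT ⊢
    rw [Finset.mem_symmDiff, Finset.mem_symmDiff]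
    tauto

/-- finite energy -/
theorem card_Hs_insert (Λ : Finset V) (ω : Finset (Sym2 V)) (e : Sym2 V) :
    (Hs Λ ω).card ≤ 2 * (Hs Λ (insert e ω)).card := by
  have h1 : (Hs Λ ω).filter (fun S => Mono S e) = Hs Λ (insert e ω) := by
    ext S
    rw [Finset.mem_filter, mem_Hs, mem_Hs]
    simp only [Finset.mem_insert, forall_eq_or_imp]
    tauto
  have h2 : ((Hs Λ ω).filter (fun S => ¬ Mono S e)).card ≤
      ((Hs Λ ω).filter (fun S => Mono S e)).card := by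
    rcases ((Hs Λ ω).filter (fun S => ¬ Mono S e)).eq_empty_or_nonempty with h | ⟨S₀, hS₀⟩
    · rw [h]; simp
    · rw [Finset.mem_filter] at hS₀
      refine Finset.card_le_card_of_injOn (fun S => symmDiff S S₀) ?_ ?_
      · intro S hS
        rw [Finset.mem_coe, Finset.mem_filter] at hS
        rw [Finset.mem_coe, Finset.mem_filter]
        exact ⟨symmDiff_mem_Hs hS.1 hS₀.1, symmDiff_mono hS.2 hS₀.2⟩
      · intro S _ T _ hST
        have := congrArg (fun X => symmDiff X S₀) hST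
        simpa only [symmDiff_symmDiff_cancel_right] using this
  have h3 := Finset.card_filter_add_card_filter_not (s := Hs Λ ω) (fun S => Mono S e)
  rw [← h1]
  omega

theorem bw_insert {P : Sym2 V → ℝ} {E ω : Finset (Sym2 V)} {e : Sym2 V} (he : e ∉ E)
    (hω : ω ⊆ E) : bw P (insert e E) (insert e ω) = P e * bw P E ω := by
  rw [bw_eq_prod (Finset.insert_subset_insert e hω), bw_eq_prod hω, Finset.prod_insert he,
    if_pos (Finset.mem_insert_self e ω)]
  congr 1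
  refine Finset.prod_congr rfl fun x hx => ?_
  have hne : x ≠ e := fun h => he (h ▸ hx)
  simp [Finset.mem_insert, hne]

theorem bw_keep {P : Sym2 V → ℝ} {E ω : Finset (Sym2 V)} {e : Sym2 V} (he : e ∉ E)
    (hω : ω ⊆ E) : bw P (insert e E) ω = (1 - P e) * bw P E ω := by
  rw [bw_eq_prod (hω.trans (Finset.subset_insert e E)), bw_eq_prod hω, Finset.prod_insert he,
    if_neg (fun h => he (hω h))]

/-- lower bound for the probability that an edge is open -/
theorem open_ge {θ : ℕ} (hθ : θ ≤ 1) {P : Sym2 V → ℝ} (h0 : ∀ e, 0 ≤ P e) (h1 : ∀ e, P e ≤ 1)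
    (E : Finset (Sym2 V)) (Λ : Finset V) {e : Sym2 V} (he : e ∈ E) :
    P e / 2 ≤ pt θ P E Λ (fun ω => if e ∈ ω then 1 else 0) := by
  obtain ⟨E', heE', rfl⟩ : ∃ E' : Finset (Sym2 V), e ∉ E' ∧ insert e E' = E :=
    ⟨E.erase e, Finset.notMem_erase e E, Finset.insert_erase he⟩
  have hZ := Zt_pos θ h0 h1 (insert e E') Λ
  unfold pt
  rw [le_div_iff₀ hZ, Finset.sum_powerset_insert heE', Finset.sum_powerset_insert heE']
  set A := ∑ t ∈ E'.powerset, bw P E' t * ((Hs Λ (insert e t)).card : ℝ) ^ θ with hA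
  set B := ∑ t ∈ E'.powerset, bw P E' t * ((Hs Λ t).card : ℝ) ^ θ with hB
  have k1 : ∑ t ∈ E'.powerset, fwt θ P (insert e E') Λ t = (1 - P e) * B := by
    rw [hB, Finset.mul_sum]
    refine Finset.sum_congr rfl fun t ht => ?_
    rw [fwt_eq, bw_keep heE' (Finset.mem_powerset.1 ht)]
    ring
  have k2 : ∑ t ∈ E'.powerset, fwt θ P (insert e E') Λ (insert e t) = P e * A := by
    rw [hA, Finset.mul_sum]
    refine Finset.sum_congr rfl fun t ht => ?_
    rw [fwt_eq, bw_insert heE' (Finset.mem_powerset.1 ht)]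
    ring
  have k3 : ∑ t ∈ E'.powerset, (if e ∈ t then (1 : ℝ) else 0) * fwt θ P (insert e E') Λ t = 0 := by
    refine Finset.sum_eq_zero fun t ht => ?_
    rw [if_neg (fun h => heE' (Finset.mem_powerset.1 ht h)), zero_mul]
  have k4 : ∑ t ∈ E'.powerset, (if e ∈ insert e t then (1 : ℝ) else 0) *
      fwt θ P (insert e E') Λ (insert e t) = P e * A := by
    rw [← k2]
    refine Finset.sum_congr rfl fun t _ => ?_
    rw [if_pos (Finset.mem_insert_self e t), one_mul]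
  rw [k1, k2, k3, k4]
  have hAB : B ≤ 2 * A := by
    rw [hA, hB, Finset.mul_sum]
    refine Finset.sum_le_sum fun t _ => ?_
    have h3 : ((Hs Λ t).card : ℝ) ^ θ ≤ 2 * ((Hs Λ (insert e t)).card : ℝ) ^ θ := by
      interval_cases θ
      · norm_num
      · rw [pow_one, pow_one]
        exact_mod_cast card_Hs_insert Λ t e
    have h4 := mul_le_mul_of_nonneg_left h3 (bw_nonneg h0 h1 E' t)
    linarith
  have hB0 : 0 ≤ B := Finset.sum_nonneg fun t _ => mul_nonneg (bw_nonneg h0 h1 E' t) (by positivity)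
  have hp0 := h0 e
  have hp1 := h1 e
  have h5 : (1 - P e) * B ≤ (2 - P e) * A := by
    have : (2 - P e) * B ≤ (2 - P e) * (2 * A) :=
      mul_le_mul_of_nonneg_left hAB (by linarith)
    have h6 : (1 - P e) * B ≤ (2 - P e) * B / 2 := by nlinarith
    linarith
  have h7 := mul_le_mul_of_nonneg_left h5 hp0
  nlinarith

end CovM

open CovM in
theorem specCov : SpecCov := by
  intro θ hθ V P E Λ h0 h1 F hF e he
  have hZ := Zt_pos θ h0 h1 E Λ
  have hins : ∀ a : Finset (Sym2 V), a ⊆ E → insert e a ⊆ E := fun a ha =>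
    Finset.insert_subset he ha
  -- positive association for `F (insert e ω)` and `e ∈ ω`
  have h2 := fkg (θ := θ) h0 h1 E Λ (fun ω => if F (insert e ω) then 1 else 0)
    (fun ω => if e ∈ ω then 1 else 0)
    (fun a => by split_ifs <;> norm_num) (fun a => by split_ifs <;> norm_num)
    (fun a b hab hb => by
      by_cases h : F (insert e a)
      · rw [if_pos h, if_pos (hF _ _ (Finset.insert_subset_insert e hab) (hins b hb) h)]
      · rw [if_neg h]; split_ifs <;> norm_num)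
    (fun a b hab hb => by
      by_cases h : e ∈ a
      · rw [if_pos h, if_pos (hab h)]
      · rw [if_neg h]; split_ifs <;> norm_num)
  have h3 : pt θ P E Λ (fun ω => (if F (insert e ω) then (1 : ℝ) else 0) *
      (if e ∈ ω then 1 else 0)) = pt θ P E Λ (fun ω => if F ω ∧ e ∈ ω then 1 else 0) := by
    unfold pt
    congr 1
    refine Finset.sum_congr rfl fun ω _ => ?_
    by_cases h : e ∈ ω
    · simp [h, Finset.insert_eq_of_mem]
    · simp [h]
  have h4 : pt θ P E Λ (fun ω => if F (insert e ω) then (1 : ℝ) else 0) =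
      pt θ P E Λ (fun ω => if F ω then 1 else 0) +
        pt θ P E Λ (fun ω => if ¬ F ω ∧ F (insert e ω) then 1 else 0) := by
    unfold pt
    rw [← add_div, ← Finset.sum_add_distrib]
    congr 1
    refine Finset.sum_congr rfl fun ω hω => ?_
    rw [← add_mul]
    congr 1
    by_cases h : F ω
    · have : F (insert e ω) := hF _ _ (Finset.subset_insert e ω)
        (hins ω (Finset.mem_powerset.1 hω)) h
      simp [h, this]
    · simp [h]
  rw [h3, h4] at h2
  have h5 := open_ge hθ h0 h1 E Λ he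
  have h6 : 0 ≤ pt θ P E Λ (fun ω => if ¬ F ω ∧ F (insert e ω) then 1 else 0) := by
    unfold pt
    refine div_nonneg (Finset.sum_nonneg fun ω _ => mul_nonneg ?_ (fwt_nonneg h0 h1 E Λ ω)) hZ.le
    beta_reduce
    split_ifs <;> norm_num
  have h7 := mul_le_mul_of_nonneg_right h5 h6
  nlinarith

end MP8622
end

section
set_option autoImplicit false

open Classical Filter Topology MeasureTheory

/-!
Module DMP of the joint project on Ising and percolation on acylindrically hyperbolic groups: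
domain Markov property for the weights `fwt`; sum over closed pivotal edges.
-/

namespace MP8622

namespace DmpM

open CovM

variable {V : Type}

/-- union of the members of `Hs Λ ω` -/
noncomputable def D (Λ : Finset V) (ω : Finset (Sym2 V)) : Finset V :=
  Λ.filter (fun x => ∃ S ∈ Hs Λ ω, x ∈ S)

theorem mem_D {Λ : Finset V} {ω : Finset (Sym2 V)} {x : V} :
    x ∈ D Λ ω ↔ ∃ S ∈ Hs Λ ω, x ∈ S := by
  unfold D
  rw [Finset.mem_filter]
  exact ⟨fun h => h.2, fun ⟨S, hS, hx⟩ => ⟨(mem_Hs.1 hS).1 hx, S, hS, hx⟩⟩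

theorem sub_D {Λ S : Finset V} {ω : Finset (Sym2 V)} (hS : S ∈ Hs Λ ω) : S ⊆ D Λ ω :=
  fun _ hx => mem_D.2 ⟨S, hS, hx⟩

theorem D_mem_Hs (Λ : Finset V) (ω : Finset (Sym2 V)) : D Λ ω ∈ Hs Λ ω := by
  rw [mem_Hs]
  refine ⟨Finset.filter_subset _ _, fun e he x hx y hy => ?_⟩
  rw [mem_D, mem_D]
  constructor
  · rintro ⟨S, hS, h⟩
    exact ⟨S, hS, ((mem_Hs.1 hS).2 e he x hx y hy).1 h⟩
  · rintro ⟨S, hS, h⟩
    exact ⟨S, hS, ((mem_Hs.1 hS).2 e he x hx y hy).2 h⟩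

theorem chi_single (x : V) (S : Finset V) : chi {x} S = if x ∈ S then -1 else 1 := by
  rw [chi_eq_prod, Finset.prod_singleton]

theorem ind_single (Λ : Finset V) (x : V) (ω : Finset (Sym2 V)) :
    ind Λ {x} ω = if x ∈ D Λ ω then 0 else 1 := by
  unfold ind
  have h : (∀ S ∈ Hs Λ ω, Even (({x} : Finset V) ∩ S).card) ↔ x ∉ D Λ ω := by
    rw [mem_D]
    push Not
    refine forall₂_congr fun S _ => ?_
    rw [even_iff_chi, chi_single]
    split_ifs with h <;> norm_num [h]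
  simp only [h]
  by_cases h2 : x ∈ D Λ ω <;> simp [h2]

theorem even_pair {x u : V} {S : Finset V} :
    Even ((symmDiff {x} {u} : Finset V) ∩ S).card ↔ (x ∈ S ↔ u ∈ S) := by
  rw [even_iff_chi, chi_symmDiff_left, chi_single, chi_single]
  by_cases hx : x ∈ S <;> by_cases hu : u ∈ S <;> norm_num [hx, hu]

theorem ind_pair (Λ : Finset V) (x u : V) (ω : Finset (Sym2 V)) :
    ind Λ (symmDiff {x} {u}) ω = if ∀ S ∈ Hs Λ ω, (x ∈ S ↔ u ∈ S) then 1 else 0 := by
  unfold ind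
  simp only [even_pair]

/-- the closed pivotal edges -/
theorem piv {Λ : Finset V} {ω : Finset (Sym2 V)} {x u : V} {e : Sym2 V}
    (hue : u ∈ e) (he : ¬ ∀ z ∈ e, z ∈ D Λ ω) (hxu : ∀ S ∈ Hs Λ ω, (x ∈ S ↔ u ∈ S)) :
    x ∉ D Λ (insert e ω) := by
  intro hx
  obtain ⟨S, hS, hxS⟩ := mem_D.1 hx
  have hS2 : S ∈ Hs Λ ω := Hs_anti (Finset.subset_insert e ω) hS
  have huS : u ∈ S := (hxu S hS2).1 hxS
  apply he
  intro z hz
  exact sub_D hS2 (((mem_Hs.1 hS).2 e (Finset.mem_insert_self e ω) u hue z hz).1 huS)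

theorem count {E : Finset (Sym2 V)} {Λ : Finset V} {ω : Finset (Sym2 V)} {x : V}
    (hx : x ∈ D Λ ω) :
    ∑ u ∈ D Λ ω, ind Λ (symmDiff {x} {u}) ω * (nout E (D Λ ω) u : ℝ) ≤
      ∑ e ∈ E, if ind Λ {x} ω = 0 ∧ ind Λ {x} (insert e ω) = 1 then (1 : ℝ) else 0 := by
  have h1 : ∀ u ∈ D Λ ω, ind Λ (symmDiff {x} {u}) ω * (nout E (D Λ ω) u : ℝ) =
      ∑ e ∈ E, if (∀ S ∈ Hs Λ ω, (x ∈ S ↔ u ∈ S)) ∧ (u ∈ e ∧ ¬ ∀ z ∈ e, z ∈ D Λ ω)
        then (1 : ℝ) else 0 := by
    intro u _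
    rw [ind_pair]
    by_cases h : ∀ S ∈ Hs Λ ω, (x ∈ S ↔ u ∈ S)
    · simp only [if_pos h, one_mul, nout]
      rw [Finset.card_filter]
      push_cast
      refine Finset.sum_congr rfl fun e _ => ?_
      simp only [eq_true h, true_and]
    · simp only [if_neg h, zero_mul]
      rw [Finset.sum_eq_zero]
      intro e _
      rw [if_neg]
      exact fun h2 => h h2.1
  rw [Finset.sum_congr rfl h1, Finset.sum_comm]
  refine Finset.sum_le_sum fun e _ => ?_
  rw [ind_single, ind_single, if_pos hx]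
  rw [← Finset.natCast_card_filter]
  rcases ((D Λ ω).filter (fun u => (∀ S ∈ Hs Λ ω, (x ∈ S ↔ u ∈ S)) ∧
    (u ∈ e ∧ ¬ ∀ z ∈ e, z ∈ D Λ ω))).eq_empty_or_nonempty with h | ⟨u, hu⟩
  · rw [h, Finset.card_empty, Nat.cast_zero]
    split_ifs <;> norm_num
  · have hu' := Finset.mem_filter.1 hu
    rw [if_neg (piv hu'.2.2.1 hu'.2.2.2 hu'.2.1)]
    rw [if_pos ⟨rfl, rfl⟩]
    have : ((D Λ ω).filter (fun u => (∀ S ∈ Hs Λ ω, (x ∈ S ↔ u ∈ S)) ∧
        (u ∈ e ∧ ¬ ∀ z ∈ e, z ∈ D Λ ω))).card ≤ 1 := by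
      rw [Finset.card_le_one]
      intro a ha b hb
      rw [Finset.mem_filter] at ha hb
      by_contra hab
      apply ha.2.2.2
      have hs : e = s(a, b) := (Sym2.mem_and_mem_iff hab).1 ⟨ha.2.2.1, hb.2.2.1⟩
      rw [hs]
      intro z hz
      rcases Sym2.mem_iff.1 hz with rfl | rfl
      · exact ha.1
      · exact hb.1
    exact_mod_cast this

/-- the edges of `E` outside `S` -/
noncomputable def eout (E : Finset (Sym2 V)) (S : Finset V) : Finset (Sym2 V) :=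
  E.filter (fun e => ∀ z ∈ e, z ∉ S)

theorem mem_ein {E : Finset (Sym2 V)} {S : Finset V} {e : Sym2 V} :
    e ∈ ein E S ↔ e ∈ E ∧ ∀ z ∈ e, z ∈ S := Finset.mem_filter

theorem mem_eout {E : Finset (Sym2 V)} {S : Finset V} {e : Sym2 V} :
    e ∈ eout E S ↔ e ∈ E ∧ ∀ z ∈ e, z ∉ S := Finset.mem_filter

theorem disj (E : Finset (Sym2 V)) (S : Finset V) : Disjoint (ein E S) (eout E S) := by
  rw [Finset.disjoint_left]
  intro e h1 h2
  rw [mem_ein] at h1
  rw [mem_eout] at h2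
  have := Sym2.out_fst_mem e
  exact h2.2 _ this (h1.2 _ this)

theorem mono_inter {T S : Finset V} {e : Sym2 V} (h : ∀ z ∈ e, z ∈ S) :
    Mono (T ∩ S) e ↔ Mono T e := by
  unfold Mono
  refine forall₂_congr fun x hx => forall₂_congr fun y hy => ?_
  simp [Finset.mem_inter, h x hx, h y hy]

theorem mono_sdiff {T S : Finset V} {e : Sym2 V} (h : ∀ z ∈ e, z ∉ S) :
    Mono (T \ S) e ↔ Mono T e := by
  unfold Mono
  refine forall₂_congr fun x hx => forall₂_congr fun y hy => ?_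
  simp [Finset.mem_sdiff, h x hx, h y hy]

theorem mem_Hs_union {E : Finset (Sym2 V)} {Λ S T : Finset V} {ω₁ ω₂ : Finset (Sym2 V)}
    (h1 : ω₁ ⊆ ein E S) (h2 : ω₂ ⊆ eout E S) :
    T ∈ Hs Λ (ω₁ ∪ ω₂) ↔ T ⊆ Λ ∧ T ∩ S ∈ Hs S ω₁ ∧ T \ S ∈ Hs (Λ \ S) ω₂ := by
  rw [mem_Hs, mem_Hs, mem_Hs]
  constructor
  · rintro ⟨hT, h⟩
    refine ⟨hT, ⟨Finset.inter_subset_right, fun e he => ?_⟩,
      Finset.sdiff_subset_sdiff hT (Finset.Subset.refl S), fun e he => ?_⟩
    · exact (mono_inter (mem_ein.1 (h1 he)).2).2 (h e (Finset.mem_union_left _ he))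
    · exact (mono_sdiff (mem_eout.1 (h2 he)).2).2 (h e (Finset.mem_union_right _ he))
  · rintro ⟨hT, ⟨_, h3⟩, _, h4⟩
    refine ⟨hT, fun e he => ?_⟩
    rcases Finset.mem_union.1 he with he | he
    · exact (mono_inter (mem_ein.1 (h1 he)).2).1 (h3 e he)
    · exact (mono_sdiff (mem_eout.1 (h2 he)).2).1 (h4 e he)

theorem card_Hs_union {E : Finset (Sym2 V)} {Λ S : Finset V} {ω₁ ω₂ : Finset (Sym2 V)}
    (hS : S ⊆ Λ) (h1 : ω₁ ⊆ ein E S) (h2 : ω₂ ⊆ eout E S) :
    (Hs Λ (ω₁ ∪ ω₂)).card = (Hs S ω₁).card * (Hs (Λ \ S) ω₂).card := by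
  rw [← Finset.card_product]
  refine Finset.card_bij' (fun T _ => (T ∩ S, T \ S)) (fun p _ => p.1 ∪ p.2) ?_ ?_ ?_ ?_
  · intro T hT
    rw [mem_Hs_union h1 h2] at hT
    exact Finset.mem_product.2 ⟨hT.2.1, hT.2.2⟩
  · rintro ⟨A, B⟩ hp
    obtain ⟨hA, hB⟩ := Finset.mem_product.1 hp
    simp only at hA hB
    have hAS := (mem_Hs.1 hA).1
    have hBS := (mem_Hs.1 hB).1
    show A ∪ B ∈ Hs Λ (ω₁ ∪ ω₂)
    rw [mem_Hs_union h1 h2]
    have e1 : (A ∪ B) ∩ S = A := by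
      ext z
      simp only [Finset.mem_inter, Finset.mem_union]
      exact ⟨fun h => h.1.elim id fun h3 => absurd h.2 (Finset.mem_sdiff.1 (hBS h3)).2,
        fun h => ⟨Or.inl h, hAS h⟩⟩
    have e2 : (A ∪ B) \ S = B := by
      ext z
      simp only [Finset.mem_sdiff, Finset.mem_union]
      exact ⟨fun h => h.1.elim (fun h3 => absurd (hAS h3) h.2) id,
        fun h => ⟨Or.inr h, (Finset.mem_sdiff.1 (hBS h)).2⟩⟩
    rw [e1, e2]
    exact ⟨Finset.union_subset (hAS.trans hS) (hBS.trans Finset.sdiff_subset), hA, hB⟩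
  · intro T hT
    ext z
    simp only [Finset.mem_union, Finset.mem_inter, Finset.mem_sdiff]
    tauto
  · rintro ⟨A, B⟩ hp
    obtain ⟨hA, hB⟩ := Finset.mem_product.1 hp
    simp only at hA hB
    have hAS := (mem_Hs.1 hA).1
    have hBS := (mem_Hs.1 hB).1
    show ((A ∪ B) ∩ S, (A ∪ B) \ S) = (A, B)
    congr 1
    · ext z
      simp only [Finset.mem_inter, Finset.mem_union]
      exact ⟨fun h => h.1.elim id fun h3 => absurd h.2 (Finset.mem_sdiff.1 (hBS h3)).2,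
        fun h => ⟨Or.inl h, hAS h⟩⟩
    · ext z
      simp only [Finset.mem_sdiff, Finset.mem_union]
      exact ⟨fun h => h.1.elim (fun h3 => absurd (hAS h3) h.2) id,
        fun h => ⟨Or.inr h, (Finset.mem_sdiff.1 (hBS h)).2⟩⟩

theorem D_union_iff {E : Finset (Sym2 V)} {Λ S : Finset V} {ω₁ ω₂ : Finset (Sym2 V)}
    (hS : S ⊆ Λ) (h1 : ω₁ ⊆ ein E S) (h2 : ω₂ ⊆ eout E S) :
    D Λ (ω₁ ∪ ω₂) = S ↔ D (Λ \ S) ω₂ = ∅ := by
  have hSS : S ∈ Hs S ω₁ := mem_Hs.2 ⟨Finset.Subset.refl S, fun e he x hx y hy =>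
    iff_of_true ((mem_ein.1 (h1 he)).2 x hx) ((mem_ein.1 (h1 he)).2 y hy)⟩
  constructor
  · intro h
    rw [Finset.eq_empty_iff_forall_notMem]
    intro y hy
    obtain ⟨B, hB, hyB⟩ := mem_D.1 hy
    have hBS := (mem_Hs.1 hB).1
    have hT : S ∪ B ∈ Hs Λ (ω₁ ∪ ω₂) := by
      rw [mem_Hs_union h1 h2]
      have e1 : (S ∪ B) ∩ S = S := Finset.inter_eq_right.2 Finset.subset_union_left
      have e2 : (S ∪ B) \ S = B := by
        ext z
        simp only [Finset.mem_sdiff, Finset.mem_union]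
        exact ⟨fun h => h.1.elim (fun h3 => absurd h3 h.2) id,
          fun h => ⟨Or.inr h, (Finset.mem_sdiff.1 (hBS h)).2⟩⟩
      rw [e1, e2]
      exact ⟨Finset.union_subset hS (hBS.trans Finset.sdiff_subset), hSS, hB⟩
    have h5 : y ∈ D Λ (ω₁ ∪ ω₂) := sub_D hT (Finset.mem_union_right _ hyB)
    rw [h] at h5
    exact (Finset.mem_sdiff.1 (hBS hyB)).2 h5
  · intro h
    apply Finset.Subset.antisymm
    · intro y hy
      obtain ⟨T, hT, hyT⟩ := mem_D.1 hy
      rw [mem_Hs_union h1 h2] at hT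
      by_contra hyS
      have : y ∈ D (Λ \ S) ω₂ := sub_D hT.2.2 (Finset.mem_sdiff.2 ⟨hyT, hyS⟩)
      rw [h] at this
      exact Finset.notMem_empty y this
    · refine sub_D ?_
      rw [mem_Hs_union h1 h2, Finset.inter_self, Finset.sdiff_self]
      exact ⟨hS, hSS, empty_mem_Hs _ _⟩

theorem sub_of_D_eq {E : Finset (Sym2 V)} {Λ S : Finset V} {ω : Finset (Sym2 V)} (hω : ω ⊆ E)
    (h : D Λ ω = S) : ω ⊆ ein E S ∪ eout E S := by
  intro e he
  have hS : S ∈ Hs Λ ω := h ▸ D_mem_Hs Λ ω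
  have hm := (mem_Hs.1 hS).2 e he
  rw [Finset.mem_union, mem_ein, mem_eout]
  by_cases h3 : ∃ z ∈ e, z ∈ S
  · obtain ⟨z, hz, hzS⟩ := h3
    exact Or.inl ⟨hω he, fun y hy => (hm z hz y hy).1 hzS⟩
  · push Not at h3
    exact Or.inr ⟨hω he, h3⟩

theorem fwt_union {θ : ℕ} {P : Sym2 V → ℝ} {E : Finset (Sym2 V)} {Λ S : Finset V}
    {ω₁ ω₂ : Finset (Sym2 V)} (hS : S ⊆ Λ) (h1 : ω₁ ⊆ ein E S) (h2 : ω₂ ⊆ eout E S) :
    fwt θ P E Λ (ω₁ ∪ ω₂) = (∏ e ∈ E \ (ein E S ∪ eout E S), (1 - P e)) *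
      (fwt θ P (ein E S) S ω₁ * fwt θ P (eout E S) (Λ \ S) ω₂) := by
  have hd := Finset.disjoint_left.1 (disj E S)
  have hsub : ein E S ∪ eout E S ⊆ E :=
    Finset.union_subset (Finset.filter_subset _ _) (Finset.filter_subset _ _)
  rw [fwt_eq, fwt_eq, fwt_eq, card_Hs_union hS h1 h2]
  have hb : bw P E (ω₁ ∪ ω₂) = (∏ e ∈ E \ (ein E S ∪ eout E S), (1 - P e)) *
      (bw P (ein E S) ω₁ * bw P (eout E S) ω₂) := by
    rw [bw_eq_prod ((Finset.union_subset_union h1 h2).trans hsub), bw_eq_prod h1, bw_eq_prod h2,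
      ← Finset.prod_sdiff hsub, Finset.prod_union (disj E S)]
    congr 1
    · refine Finset.prod_congr rfl fun e he => ?_
      rw [if_neg]
      intro h3
      exact (Finset.mem_sdiff.1 he).2 (Finset.union_subset_union h1 h2 h3)
    · congr 1
      · refine Finset.prod_congr rfl fun e he => ?_
        have : e ∈ ω₁ ∪ ω₂ ↔ e ∈ ω₁ := by
          rw [Finset.mem_union]
          exact ⟨fun h => h.elim id fun h3 => absurd (h2 h3) (hd he), Or.inl⟩
        simp only [this]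
      · refine Finset.prod_congr rfl fun e he => ?_
        have : e ∈ ω₁ ∪ ω₂ ↔ e ∈ ω₂ := by
          rw [Finset.mem_union]
          exact ⟨fun h => h.elim (fun h3 => absurd he (hd (h1 h3))) id, Or.inr⟩
        simp only [this]
  rw [hb]
  push_cast
  rw [mul_pow]
  ring

theorem sum_powerset_union' {E₁ E₂ : Finset (Sym2 V)} (hd : Disjoint E₁ E₂)
    (F : Finset (Sym2 V) → ℝ) :
    ∑ S ∈ (E₁ ∪ E₂).powerset, F S =
      ∑ S₁ ∈ E₁.powerset, ∑ S₂ ∈ E₂.powerset, F (S₁ ∪ S₂) := by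
  rw [← Finset.sum_product']
  symm
  refine Finset.sum_bij' (fun p _ => p.1 ∪ p.2) (fun S _ => (S ∩ E₁, S ∩ E₂)) ?_ ?_ ?_ ?_ ?_
  · intro p hp
    rw [Finset.mem_product, Finset.mem_powerset, Finset.mem_powerset] at hp
    rw [Finset.mem_powerset]
    exact Finset.union_subset_union hp.1 hp.2
  · intro S hS
    rw [Finset.mem_product, Finset.mem_powerset, Finset.mem_powerset]
    exact ⟨Finset.inter_subset_right, Finset.inter_subset_right⟩
  · rintro ⟨S₁, S₂⟩ hp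
    rw [Finset.mem_product, Finset.mem_powerset, Finset.mem_powerset] at hp
    obtain ⟨h1, h2⟩ := hp
    simp only at h1 h2
    rw [Finset.disjoint_left] at hd
    ext x
    · simp only [Finset.mem_inter, Finset.mem_union]
      exact ⟨fun h => h.1.elim id fun h3 => absurd (h2 h3) (hd h.2), fun h => ⟨Or.inl h, h1 h⟩⟩
    · simp only [Finset.mem_inter, Finset.mem_union]
      exact ⟨fun h => h.1.elim (fun h3 => absurd h.2 (hd (h1 h3))) id, fun h => ⟨Or.inr h, h2 h⟩⟩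
  · intro S hS
    rw [Finset.mem_powerset] at hS
    show S ∩ E₁ ∪ S ∩ E₂ = S
    rw [← Finset.inter_union_distrib_left, Finset.inter_eq_left.2 hS]
  · intro p _
    rfl

theorem sum_D_eq {θ : ℕ} {P : Sym2 V → ℝ} {E : Finset (Sym2 V)} {Λ S : Finset V}
    (hS : S ⊆ Λ) (g : Finset (Sym2 V) → ℝ) :
    ∑ ω ∈ E.powerset, (if D Λ ω = S then g (ω ∩ ein E S) * fwt θ P E Λ ω else 0) =
      (∏ e ∈ E \ (ein E S ∪ eout E S), (1 - P e)) *
        ((∑ ω ∈ (ein E S).powerset, g ω * fwt θ P (ein E S) S ω) *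
          ∑ ω ∈ (eout E S).powerset, if D (Λ \ S) ω = ∅ then
            fwt θ P (eout E S) (Λ \ S) ω else 0) := by
  have hd := Finset.disjoint_left.1 (disj E S)
  have hsub : ein E S ∪ eout E S ⊆ E :=
    Finset.union_subset (Finset.filter_subset _ _) (Finset.filter_subset _ _)
  rw [← Finset.sum_subset (Finset.powerset_mono.2 hsub), sum_powerset_union' (disj E S),
    Finset.sum_mul_sum, Finset.mul_sum]
  · refine Finset.sum_congr rfl fun ω₁ h1 => ?_
    rw [Finset.mul_sum]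
    refine Finset.sum_congr rfl fun ω₂ h2 => ?_
    rw [Finset.mem_powerset] at h1 h2
    have e1 : (ω₁ ∪ ω₂) ∩ ein E S = ω₁ := by
      ext e
      simp only [Finset.mem_inter, Finset.mem_union]
      exact ⟨fun h => h.1.elim id fun h3 => absurd (h2 h3) (hd h.2), fun h => ⟨Or.inl h, h1 h⟩⟩
    rw [e1, fwt_union hS h1 h2]
    by_cases h3 : D (Λ \ S) ω₂ = ∅
    · rw [if_pos ((D_union_iff hS h1 h2).2 h3), if_pos h3]
      ring
    · rw [if_neg (fun h4 => h3 ((D_union_iff hS h1 h2).1 h4)), if_neg h3]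
      ring
  · intro ω hω hω2
    rw [Finset.mem_powerset] at hω hω2
    rw [if_neg]
    exact fun h => hω2 (sub_of_D_eq hω h)

/-- total weight of the configurations with `D Λ ω = S` -/
noncomputable def W (θ : ℕ) (P : Sym2 V → ℝ) (E : Finset (Sym2 V)) (Λ S : Finset V) : ℝ :=
  ∑ ω ∈ E.powerset, if D Λ ω = S then fwt θ P E Λ ω else 0

theorem ind_restrict {E : Finset (Sym2 V)} {Λ S : Finset V} {ω : Finset (Sym2 V)} (hω : ω ⊆ E)
    (h : D Λ ω = S) {x u : V} (hx : x ∈ S) (hu : u ∈ S) :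
    ind Λ (symmDiff {x} {u}) ω = ind S (symmDiff {x} {u}) (ω ∩ ein E S) := by
  have hsub := sub_of_D_eq hω h
  have hSΛ : S ⊆ Λ := by
    rw [← h]; exact (mem_Hs.1 (D_mem_Hs Λ ω)).1
  have hω2 : ω = (ω ∩ ein E S) ∪ (ω ∩ eout E S) := by
    rw [← Finset.inter_union_distrib_left, Finset.inter_eq_left.2 hsub]
  have h1 : ω ∩ ein E S ⊆ ein E S := Finset.inter_subset_right
  have h2 : ω ∩ eout E S ⊆ eout E S := Finset.inter_subset_right
  rw [ind_pair, ind_pair]
  have key : (∀ T ∈ Hs Λ ω, (x ∈ T ↔ u ∈ T)) ↔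
      ∀ T ∈ Hs S (ω ∩ ein E S), (x ∈ T ↔ u ∈ T) := by
    constructor
    · intro h3 T hT
      apply h3
      rw [hω2, mem_Hs_union h1 h2]
      have hTS := (mem_Hs.1 hT).1
      rw [Finset.inter_eq_left.2 hTS, Finset.sdiff_eq_empty_iff_subset.2 hTS]
      exact ⟨hTS.trans hSΛ, hT, empty_mem_Hs _ _⟩
    · intro h3 T hT
      rw [hω2, mem_Hs_union h1 h2] at hT
      have := h3 _ hT.2.1
      simpa only [Finset.mem_inter, hx, hu, and_true] using this
  simp only [key]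

/-- domain Markov property -/
theorem markov {θ : ℕ} {P : Sym2 V → ℝ} (h0 : ∀ e, 0 ≤ P e) (h1 : ∀ e, P e ≤ 1)
    {E : Finset (Sym2 V)} {Λ S : Finset V} (hS : S ⊆ Λ) {x u : V} (hx : x ∈ S) (hu : u ∈ S) :
    ∑ ω ∈ E.powerset, (if D Λ ω = S then ind Λ (symmDiff {x} {u}) ω * fwt θ P E Λ ω else 0) =
      W θ P E Λ S * pt θ P (ein E S) S (ind S (symmDiff {x} {u})) := by
  have hZ := Zt_pos θ h0 h1 (ein E S) S
  have e1 : ∑ ω ∈ E.powerset,
      (if D Λ ω = S then ind Λ (symmDiff {x} {u}) ω * fwt θ P E Λ ω else 0) =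
      ∑ ω ∈ E.powerset, (if D Λ ω = S then
        ind S (symmDiff {x} {u}) (ω ∩ ein E S) * fwt θ P E Λ ω else 0) := by
    refine Finset.sum_congr rfl fun ω hω => ?_
    by_cases h : D Λ ω = S
    · rw [if_pos h, if_pos h, ind_restrict (Finset.mem_powerset.1 hω) h hx hu]
    · rw [if_neg h, if_neg h]
  have e2 : W θ P E Λ S = ∑ ω ∈ E.powerset,
      (if D Λ ω = S then (fun _ => (1 : ℝ)) (ω ∩ ein E S) * fwt θ P E Λ ω else 0) := by
    unfold W
    refine Finset.sum_congr rfl fun ω _ => ?_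
    simp only [one_mul]
  rw [e1, sum_D_eq hS, e2, sum_D_eq hS (fun _ => (1 : ℝ))]
  unfold pt
  simp only [one_mul]
  field_simp

end DmpM

open CovM DmpM in
theorem specDmp : SpecDmp := by
  intro θ V P E Λ x h0 h1 _ hx c hc
  have h1' : ∀ e, P e ≤ 1 := fun e => (h1 e).le
  have hZ := Zt_pos θ h0 h1' E Λ
  have hf := fwt_nonneg (θ := θ) h0 h1' E Λ
  set 𝒮 := Λ.powerset.filter (fun S => x ∈ S) with h𝒮
  -- decomposition according to `D Λ ω`
  have hdec : ∀ (ω : Finset (Sym2 V)) (F : Finset V → ℝ),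
      ∑ S ∈ 𝒮, (if D Λ ω = S then F S else 0) = if x ∈ D Λ ω then F (D Λ ω) else 0 := by
    intro ω F
    rw [Finset.sum_ite_eq]
    have : D Λ ω ∈ 𝒮 ↔ x ∈ D Λ ω := by
      rw [h𝒮, Finset.mem_filter, Finset.mem_powerset]
      exact ⟨fun h => h.2, fun h => ⟨(mem_Hs.1 (D_mem_Hs Λ ω)).1, h⟩⟩
    simp only [this]
  have hW : ∀ S, 0 ≤ W θ P E Λ S := fun S =>
    Finset.sum_nonneg fun ω _ => by split_ifs; exacts [hf ω, le_rfl]
  -- left side
  have e1 : 1 - pt θ P E Λ (ind Λ {x}) =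
      (∑ S ∈ 𝒮, W θ P E Λ S) / ∑ ω ∈ E.powerset, fwt θ P E Λ ω := by
    unfold pt W
    rw [Finset.sum_comm, eq_div_iff hZ.ne', sub_mul, one_mul, div_mul_cancel₀ _ hZ.ne',
      ← Finset.sum_sub_distrib]
    refine Finset.sum_congr rfl fun ω _ => ?_
    rw [hdec ω (fun _ => fwt θ P E Λ ω), ind_single]
    split_ifs <;> ring
  -- right side
  have e2 : ∑ e ∈ E, pt θ P E Λ (fun ω => if ind Λ {x} ω = 0 ∧ ind Λ {x} (insert e ω) = 1 then 1
      else 0) = (∑ ω ∈ E.powerset, (∑ e ∈ E, if ind Λ {x} ω = 0 ∧ ind Λ {x} (insert e ω) = 1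
        then (1 : ℝ) else 0) * fwt θ P E Λ ω) / ∑ ω ∈ E.powerset, fwt θ P E Λ ω := by
    unfold pt
    rw [← Finset.sum_div, Finset.sum_comm]
    congr 1
    refine Finset.sum_congr rfl fun ω _ => ?_
    rw [Finset.sum_mul]
  rw [e1, e2, ← mul_div_assoc]
  refine div_le_div_of_nonneg_right ?_ hZ.le
  calc c * ∑ S ∈ 𝒮, W θ P E Λ S = ∑ S ∈ 𝒮, c * W θ P E Λ S := Finset.mul_sum _ _ _
    _ ≤ ∑ S ∈ 𝒮, psi θ P E S x * W θ P E Λ S := by
        refine Finset.sum_le_sum fun S hS => ?_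
        rw [h𝒮, Finset.mem_filter, Finset.mem_powerset] at hS
        exact mul_le_mul_of_nonneg_right (hc S hS.1 hS.2) (hW S)
    _ = ∑ S ∈ 𝒮, ∑ ω ∈ E.powerset, (if D Λ ω = S then
          (∑ u ∈ S, ind Λ (symmDiff {x} {u}) ω * (nout E S u : ℝ)) * fwt θ P E Λ ω else 0) := by
        refine Finset.sum_congr rfl fun S hS => ?_
        rw [h𝒮, Finset.mem_filter, Finset.mem_powerset] at hS
        unfold psi
        rw [Finset.sum_mul]
        have k1 : ∀ u ∈ S, pt θ P (ein E S) S (ind S (symmDiff {x} {u})) * (nout E S u : ℝ) *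
            W θ P E Λ S = ∑ ω ∈ E.powerset, (if D Λ ω = S then
              ind Λ (symmDiff {x} {u}) ω * fwt θ P E Λ ω else 0) * (nout E S u : ℝ) := by
          intro u hu
          rw [← Finset.sum_mul, markov h0 h1' hS.1 hS.2 hu]
          ring
        rw [Finset.sum_congr rfl k1, Finset.sum_comm]
        refine Finset.sum_congr rfl fun ω _ => ?_
        by_cases h : D Λ ω = S
        · simp only [if_pos h]
          rw [Finset.sum_mul]
          exact Finset.sum_congr rfl fun u _ => by ring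
        · simp only [if_neg h, zero_mul, Finset.sum_const_zero]
    _ = ∑ ω ∈ E.powerset, (if x ∈ D Λ ω then
          (∑ u ∈ D Λ ω, ind Λ (symmDiff {x} {u}) ω * (nout E (D Λ ω) u : ℝ)) * fwt θ P E Λ ω
          else 0) := by
        rw [Finset.sum_comm]
        exact Finset.sum_congr rfl fun ω _ => hdec ω (fun S =>
          (∑ u ∈ S, ind Λ (symmDiff {x} {u}) ω * (nout E S u : ℝ)) * fwt θ P E Λ ω)
    _ ≤ _ := by
        refine Finset.sum_le_sum fun ω _ => ?_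
        by_cases h : x ∈ D Λ ω
        · rw [if_pos h]
          exact mul_le_mul_of_nonneg_right (count h) (hf ω)
        · rw [if_neg h]
          refine mul_nonneg (Finset.sum_nonneg fun e _ => ?_) (hf ω)
          split_ifs <;> norm_num

end MP8622
end

section
set_option autoImplicit false

open Classical Filter Topology SimpleGraph

namespace MP8622

namespace RP

namespace SHAM

open IsfM

variable {V : Type} (G : SimpleGraph V) [G.LocallyFinite]

/-- neighbours of `u` outside `S` -/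
noncomputable def nbo (S : Finset V) (u : V) : Finset V :=
  (G.neighborFinset u).filter (fun v => v ∉ S)

theorem mem_nbo {S : Finset V} {u v : V} : v ∈ nbo G S u ↔ G.Adj u v ∧ v ∉ S := by
  simp [nbo]

/-- the functional `φ_p(S)` started at `x` -/
noncomputable def ph (p : ℝ) (S : Finset V) (x : V) : ℝ :=
  ∑ u ∈ S, ∑ _v ∈ nbo G S u, p / (2 - p) * tau G p S x u

theorem ph_le_psi (β : ℝ) (hβ : 0 ≤ β) {S Λ : Finset V} {x : V} (hxS : x ∈ S) (hS : S ⊆ Λ) :
    ph G (pr β) S x ≤ psi 1 (fun _ => pr β) (ed G Λ) S x := by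
  have hp0 : 0 ≤ pr β := pr_nonneg hβ
  have hp1 : pr β ≤ 1 := pr_le_one β
  unfold ph psi
  refine Finset.sum_le_sum fun u hu => ?_
  rw [Finset.sum_const, nsmul_eq_mul, mul_comm]
  have h2 : pt 1 (fun _ => pr β) (ein (ed G Λ) S) S (ind S (symmDiff {x} {u})) =
      tau G (pr β) S x u := by
    rw [tau_eq G hxS hu, corr_eq, ein_ed G hS]
    unfold pt fwt fw
    simp only [pow_one]
  rw [h2]
  have h3 : (nbo G S u).card ≤ nout (ed G Λ) S u := by
    unfold nout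
    refine Finset.card_le_card_of_injOn (fun v => s(u, v)) ?_ ?_
    · intro v hv
      rw [Finset.mem_coe, mem_nbo] at hv
      rw [Finset.mem_coe, Finset.mem_filter, mem_ed_mk]
      exact ⟨⟨hv.1, Or.inl (hS hu)⟩, Sym2.mem_mk_left _ _, fun h =>
        hv.2 (h _ (Sym2.mem_mk_right _ _))⟩
    · intro a _ b _ hab
      simp only at hab
      rwa [Sym2.congr_right] at hab
  have h4 : ((nbo G S u).card : ℝ) ≤ (nout (ed G Λ) S u : ℝ) := by exact_mod_cast h3
  have h5 := tau_nonneg G hp0 hp1 S x u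
  have h6 : pr β / (2 - pr β) * tau G (pr β) S x u ≤ tau G (pr β) S x u :=
    mul_le_of_le_one_left h5 (t_le_one hp1)
  exact mul_le_mul h6 h4 (Nat.cast_nonneg _) h5

theorem tp_tr {g : V ≃ V} (hg : IsAut G g) (β : ℝ) (x : V) : tp G β {g x} = tp G β {x} := by
  have h := tp_map G hg β {x}
  rw [Finset.map_singleton] at h
  simpa using h

theorem nbo_map {g : V ≃ V} (hg : IsAut G g) (S : Finset V) (u : V) :
    nbo G (im g S) (g u) = im g (nbo G S u) := by
  ext v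
  unfold im
  rw [mem_nbo, Finset.mem_map_equiv, Finset.mem_map_equiv, mem_nbo]
  have : G.Adj (g u) v ↔ G.Adj u (g.symm v) := by
    have h := hg u (g.symm v)
    rwa [Equiv.apply_symm_apply] at h
  rw [this]

theorem ph_map {g : V ≃ V} (hg : IsAut G g) (p : ℝ) (S : Finset V) (x : V) :
    ph G p (im g S) (g x) = ph G p S x := by
  unfold ph
  have h1 : ∀ u, ∑ _v ∈ nbo G (im g S) (g u), p / (2 - p) * tau G p (im g S) (g x) (g u) =
      ∑ _v ∈ nbo G S u, p / (2 - p) * tau G p S x u := by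
    intro u
    rw [nbo_map G hg, Finset.sum_const, Finset.sum_const]
    unfold im
    rw [Finset.card_map, tau_map G hg]
  have h2 : ∑ u ∈ im g S, ∑ _v ∈ nbo G (im g S) u, p / (2 - p) * tau G p (im g S) (g x) u =
      ∑ u ∈ S, ∑ _v ∈ nbo G (im g S) (g u), p / (2 - p) * tau G p (im g S) (g x) (g u) := by
    have : im g S = S.map g.toEmbedding := rfl
    conv_lhs => rw [this, Finset.sum_map]
    rfl
  rw [h2]
  exact Finset.sum_congr rfl fun u _ => h1 u

/-- one step of the Simon-Lieb inequality -/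
theorem step {p : ℝ} (h0 : 0 ≤ p) (h1 : p ≤ 1) {S Λ : Finset V} {x z : V} (hxS : x ∈ S)
    (hx : x ∈ Λ) (hz : z ∈ Λ) :
    tau G p Λ x z ≤ (if z ∈ S then (1 : ℝ) else 0) +
      ∑ u ∈ S, ∑ v ∈ nbo G S u, p / (2 - p) * tau G p S x u * tau G p Λ v z := by
  have ht := t_nonneg h0 h1
  have hterm : ∀ u v, 0 ≤ p / (2 - p) * tau G p S x u * tau G p Λ v z := fun u v =>
    mul_nonneg (mul_nonneg ht (tau_nonneg G h0 h1 _ _ _)) (tau_nonneg G h0 h1 _ _ _)
  have hnn : 0 ≤ ∑ u ∈ S, ∑ v ∈ nbo G S u, p / (2 - p) * tau G p S x u * tau G p Λ v z :=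
    Finset.sum_nonneg fun u _ => Finset.sum_nonneg fun v _ => hterm u v
  by_cases hzS : z ∈ S
  · rw [if_pos hzS]
    linarith [tau_le_one G h1 Λ x z]
  · rw [if_neg hzS, zero_add, tau_eq G hx hz]
    have h2 := specSL V (fun _ => p) (ed0 G Λ) Λ (S ∩ Λ) {z} x (fun _ => h0) (fun _ => h1)
      (fun e he => not_isDiag_ed G (ed0_subset_ed G Λ he)) Finset.inter_subset_right
      (Finset.mem_inter.2 ⟨hxS, hx⟩)
      (Finset.disjoint_singleton_left.2 fun h => hzS (Finset.mem_inter.1 h).1) Λ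
      (fun e he => ((mem_ed0 G).1 he).2)
    refine h2.trans ?_
    refine (Finset.sum_le_sum (g := fun u => ∑ v ∈ nbo G S u,
      p / (2 - p) * tau G p S x u * tau G p Λ v z) fun u hu => ?_).trans
      (Finset.sum_le_sum_of_subset_of_nonneg Finset.inter_subset_left fun u _ _ =>
        Finset.sum_nonneg fun v _ => hterm u v)
    have huS := (Finset.mem_inter.1 hu).1
    have huΛ := (Finset.mem_inter.1 hu).2
    rw [← Finset.sum_filter]
    refine (Finset.sum_le_sum (g := fun v => p / (2 - p) * tau G p S x u * tau G p Λ v z)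
      fun v hv => ?_).trans (Finset.sum_le_sum_of_subset_of_nonneg ?_ fun v _ _ => hterm u v)
    · rw [Finset.mem_filter, Finset.mem_sdiff] at hv
      rw [ein_ed0 G Finset.inter_subset_right, tau_eq G hv.1.1 hz]
      refine mul_le_mul_of_nonneg_right ?_ (corr_nonneg (fun _ => h0) (fun _ => h1) _)
      refine mul_le_mul_of_nonneg_left ?_ ht
      rw [← tau_eq G (Finset.mem_inter.2 ⟨hxS, hx⟩) hu]
      exact tau_mono G h0 le_rfl h1 Finset.inter_subset_left x u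
    · intro v hv
      rw [Finset.mem_filter, Finset.mem_sdiff, mem_ed0_mk] at hv
      rw [mem_nbo]
      exact ⟨hv.2.1, fun h => hv.1.2 (Finset.mem_inter.2 ⟨h, hv.1.1⟩)⟩

theorem sum_step {p : ℝ} (h0 : 0 ≤ p) (h1 : p ≤ 1) {S Λ : Finset V} {x : V} (hxS : x ∈ S)
    (hx : x ∈ Λ) (m : ℝ) (hm : ∀ y, ∑ z ∈ Λ, tau G p Λ y z ≤ m) :
    ∑ z ∈ Λ, tau G p Λ x z ≤ S.card + ph G p S x * m := by
  refine (Finset.sum_le_sum fun z hz => step G h0 h1 hxS hx hz).trans ?_
  rw [Finset.sum_add_distrib]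
  refine add_le_add ?_ ?_
  · rw [← Finset.sum_filter, Finset.sum_const, nsmul_eq_mul, mul_one]
    have : (Finset.filter (fun z => z ∈ S) Λ).card ≤ S.card :=
      Finset.card_le_card fun z hz => (Finset.mem_filter.1 hz).2
    exact_mod_cast this
  · rw [Finset.sum_comm, ph, Finset.sum_mul]
    refine Finset.sum_le_sum fun u _ => ?_
    rw [Finset.sum_comm, Finset.sum_mul]
    refine Finset.sum_le_sum fun v _ => ?_
    rw [← Finset.mul_sum]
    exact mul_le_mul_of_nonneg_left (hm _)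
      (mul_nonneg (t_nonneg h0 h1) (tau_nonneg G h0 h1 _ _ _))

theorem tau_out {p : ℝ} {Λ : Finset V} {x : V} (hx : x ∉ Λ) (y : V) : tau G p Λ x y = 0 :=
  if_neg fun h => hx h.1

/-- subcriticality from `φ < 1` -/
theorem sub (htr : ∀ x y : V, ∃ g : V ≃ V, IsAut G g ∧ g x = y) {p : ℝ} (h0 : 0 ≤ p)
    (h1 : p ≤ 1) {S : Finset V} {o : V} (ho : o ∈ S) (hph : ph G p S o < 1) :
    ∃ B : ℝ, ∀ (Λ : Finset V) (x : V), ∑ z ∈ Λ, tau G p Λ x z ≤ B := by
  refine ⟨S.card / (1 - ph G p S o), fun Λ x => ?_⟩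
  have h2 : (0 : ℝ) ≤ S.card / (1 - ph G p S o) :=
    div_nonneg (Nat.cast_nonneg _) (by linarith)
  rcases Λ.eq_empty_or_nonempty with rfl | hne
  · simpa using h2
  · obtain ⟨x₀, hx₀, hmax⟩ := Finset.exists_max_image Λ (fun x => ∑ z ∈ Λ, tau G p Λ x z) hne
    have hnn : 0 ≤ ∑ z ∈ Λ, tau G p Λ x₀ z :=
      Finset.sum_nonneg fun z _ => tau_nonneg G h0 h1 _ _ _
    have hm : ∀ y, ∑ z ∈ Λ, tau G p Λ y z ≤ ∑ z ∈ Λ, tau G p Λ x₀ z := by
      intro y
      by_cases hy : y ∈ Λ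
      · exact hmax y hy
      · rw [Finset.sum_eq_zero fun z _ => tau_out G hy z]
        exact hnn
    obtain ⟨g, hg, hgo⟩ := htr o x₀
    have hmem : x₀ ∈ im g S := by
      rw [← hgo]
      unfold im
      rw [Finset.mem_map_equiv, Equiv.symm_apply_apply]
      exact ho
    have h3 := sum_step G h0 h1 hmem hx₀ _ hm
    have h4 : ph G p (im g S) x₀ = ph G p S o := by rw [← hgo]; exact ph_map G hg p S o
    have h5 : (im g S).card = S.card := by unfold im; exact Finset.card_map _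
    rw [h4, h5] at h3
    refine (hm x).trans ?_
    rw [le_div_iff₀ (by linarith)]
    linarith

end SHAM

open SHAM IsfM in
theorem specSHA : SpecSHA := by
  intro V G _ htr o β β' hβ hββ' htp
  have hShp := specShp specCov specDmp
  by_cases hall : ∀ b : ℝ, β < b → ∀ S : Finset V, o ∈ S → 1 ≤ ph G (pr b) S o
  · exfalso
    have key : ∀ Λ : Finset V, o ∈ Λ → 1 - Real.exp (-(β' - β)) ≤ Tp G β' Λ {o} := by
      intro Λ h1
      have h2 := hShp 1 le_rfl V (ed G Λ) Λ o (fun e he => not_isDiag_ed G he) h1 β hβ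
        (fun b hb S hS hoS => (hall b hb S hoS).trans
          (ph_le_psi G b (hβ.trans hb.le) hoS hS)) β' hββ'.le
      have h3 : pt 1 (fun _ => pr β') (ed G Λ) Λ (ind Λ {o}) = Tp G β' Λ {o} := by
        unfold Tp
        rw [corr_eq]
        unfold pt fwt fw
        simp only [pow_one]
      rwa [h3] at h2
    have h4 : 1 - Real.exp (-(β' - β)) ≤ tp G β' {o} := by
      refine le_ciInf fun Λ => ?_
      refine (key (insert o Λ) (Finset.mem_insert_self _ _)).trans ?_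
      exact Tp_anti G (hβ.trans hββ'.le) (Finset.subset_insert _ _) {o}
    have h5 : Real.exp (-(β' - β)) < 1 := Real.exp_lt_one_iff.2 (by linarith)
    rw [htp] at h4
    linarith
  · push Not at hall
    obtain ⟨b, hb, S, hoS, hph⟩ := hall
    obtain ⟨B, hB⟩ := sub G htr (pr_nonneg (hβ.trans hb.le)) (pr_le_one b) hoS hph
    refine ⟨B, fun Λ x => (Finset.sum_le_sum fun z _ => ?_).trans (hB Λ x)⟩
    refine tau_mono G (pr_nonneg hβ) ?_ (pr_le_one b) (Finset.Subset.refl Λ) x z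
    unfold pr
    have : Real.exp (-2 * b) ≤ Real.exp (-2 * β) := Real.exp_le_exp.2 (by linarith)
    linarith

end RP

end MP8622
end

section
set_option autoImplicit false

open Classical Filter Topology SimpleGraph

namespace MP8622

namespace RP

namespace FINM

open IsfM SHAM

variable {V : Type} (G : SimpleGraph V) [G.LocallyFinite]

/-- high temperature: the magnetisation vanishes -/
theorem high (htr : ∀ x y : V, ∃ g : V ≃ V, IsAut G g ∧ g x = y) {β : ℝ} (hβ : 0 ≤ β) (o : V)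
    (hD : pr β / (2 - pr β) * ((G.neighborFinset o).card : ℝ) < 1) : tp G β {o} = 0 := by
  have hp0 : 0 ≤ pr β := pr_nonneg hβ
  have hp1 : pr β ≤ 1 := pr_le_one β
  have ht : 0 ≤ pr β / (2 - pr β) := IsfM.t_nonneg hp0 hp1
  have key : ∀ Λ : Finset V, o ∈ Λ → Tp G β Λ {o} ≤ ∑ v ∈ G.neighborFinset o,
      pr β / (2 - pr β) * Tp G β Λ {v} := by
    intro Λ hΛ
    set W : Finset V := (ed G Λ).biUnion (fun e => e.toFinset) with hW
    have h2 := specSL V (fun _ => pr β) (ed G Λ) Λ {o} ∅ o (fun _ => hp0) (fun _ => hp1)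
      (fun e he => not_isDiag_ed G he) (Finset.singleton_subset_iff.2 hΛ)
      (Finset.mem_singleton_self o) (Finset.disjoint_empty_left _) W (by
        intro e he z hz
        rw [hW, Finset.mem_biUnion]
        exact ⟨e, he, by rw [Sym2.mem_toFinset]; exact hz⟩)
    have h3 : ∀ z : V, symmDiff ({z} : Finset V) ∅ = {z} := by
      intro z
      rw [← Finset.bot_eq_empty, symmDiff_bot]
    simp only [h3] at h2
    refine h2.trans ?_
    rw [Finset.sum_singleton, ← Finset.sum_filter]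
    refine (Finset.sum_le_sum (g := fun v => pr β / (2 - pr β) * Tp G β Λ {v}) fun v _ => ?_).trans
      (Finset.sum_le_sum_of_subset_of_nonneg ?_ fun v _ _ => mul_nonneg ht (Tp_nonneg G hβ _ _))
    · refine mul_le_mul_of_nonneg_right ?_ (Tp_nonneg G hβ Λ {v})
      exact mul_le_of_le_one_right ht (corr_le_one (fun _ => hp1) _)
    · intro v hv
      rw [Finset.mem_filter, mem_ed_mk] at hv
      rw [SimpleGraph.mem_neighborFinset]
      exact hv.2.1
  have hlim : Tendsto (fun Λ : Finset V => ∑ v ∈ G.neighborFinset o,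
      pr β / (2 - pr β) * Tp G β Λ {v}) atTop
      (𝓝 (∑ v ∈ G.neighborFinset o, pr β / (2 - pr β) * tp G β {v})) :=
    tendsto_finsetSum _ fun v _ => (tendsto_Tp G hβ {v}).const_mul _
  have h4 := le_of_tendsto_of_tendsto (tendsto_Tp G hβ {o}) hlim (by
    filter_upwards [eventually_ge_atTop {o}] with Λ hΛ
    exact key Λ (hΛ (Finset.mem_singleton_self o)))
  have h5 : ∑ v ∈ G.neighborFinset o, pr β / (2 - pr β) * tp G β {v} =
      pr β / (2 - pr β) * ((G.neighborFinset o).card : ℝ) * tp G β {o} := by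
    have : ∀ v ∈ G.neighborFinset o, pr β / (2 - pr β) * tp G β {v} =
        pr β / (2 - pr β) * tp G β {o} := by
      intro v _
      obtain ⟨g, hg, rfl⟩ := htr o v
      rw [tp_tr G hg]
    rw [Finset.sum_congr rfl this, Finset.sum_const, nsmul_eq_mul]
    ring
  rw [h5] at h4
  have h6 := tp_nonneg G hβ {o}
  nlinarith

theorem tp_mono_beta {β β' : ℝ} (hβ : 0 ≤ β) (h : β ≤ β') (A : Finset V) :
    tp G β A ≤ tp G β' A := by
  refine le_ciInf fun Λ => (tp_le G hβ Λ A).trans ?_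
  refine corr_mono (fun _ => pr_nonneg hβ) (fun _ => ?_) (fun _ => pr_le_one β')
    (Finset.Subset.refl _) _
  unfold pr
  have : Real.exp (-2 * β') ≤ Real.exp (-2 * β) := Real.exp_le_exp.2 (by linarith)
  linarith

theorem T2_self (β : ℝ) (x : V) : T2 G β x x = 1 := by
  unfold T2 tf
  rw [symmDiff_self, Finset.bot_eq_empty]
  have : ∀ Λ : Finset V, Tf G β (Λ ∪ ∅) ∅ = 1 := fun Λ => corr_empty (fun _ => pr_le_one β)
  simp only [this]
  exact ciSup_const

theorem pr_le_two_mul {β : ℝ} : pr β ≤ 2 * β := by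
  unfold pr
  have := Real.add_one_le_exp (-2 * β)
  linarith

theorem card_nbr (htr : ∀ x y : V, ∃ g : V ≃ V, IsAut G g ∧ g x = y) (o x : V) :
    (G.neighborFinset x).card ≤ (G.neighborFinset o).card := by
  obtain ⟨g, hg, rfl⟩ := htr o x
  have : G.neighborFinset (g o) = (G.neighborFinset o).map g.toEmbedding := by
    ext v
    rw [Finset.mem_map_equiv, SimpleGraph.mem_neighborFinset, SimpleGraph.mem_neighborFinset]
    have h := hg o (g.symm v)
    rwa [Equiv.apply_symm_apply] at h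
  rw [this, Finset.card_map]

theorem ob_mono {K K' : V → V → ℝ} {B B' : ℝ} (h0 : ∀ x y, 0 ≤ K x y)
    (h : ∀ x y, K x y ≤ K' x y) (hB : B ≤ B') (hK : AHP.OB 2 K' B) : AHP.OB 2 K B' := by
  intro U W v hv
  refine (Finset.sum_le_sum fun x _ => Real.rpow_le_rpow
    (Finset.sum_nonneg fun y _ => mul_nonneg (h0 x y) (hv y))
    (Finset.sum_le_sum fun y _ => mul_le_mul_of_nonneg_right (h x y) (hv y)) zero_le_two).trans
    ((hK U W v hv).trans ?_)
  exact mul_le_mul_of_nonneg_right hB (Finset.sum_nonneg fun y _ => Real.rpow_nonneg (hv y) _)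

/-- the main argument for a general transitive graph -/
theorem core (htr : ∀ x y : V, ∃ g : V ≃ V, IsAut G g ∧ g x = y) (o : V)
    (hfin : ∃ β : ℝ, 0 < β ∧ 0 < tp G β {o})
    (hOPB : ∀ b₀ : ℝ, 0 < b₀ → ∃ B : ℝ, 0 < B ∧ ∀ (β β' : ℝ), b₀ ≤ β → β < β' →
      tp G β' {o} = 0 → ∀ Λ : Finset V, AHP.OB 2 (tau G (pr β) Λ) B) (hPSS : SpecPSS) :
    ∃ βc b B : ℝ, 0 < βc ∧ βc < b ∧
      (∀ β : ℝ, 0 < β → β < βc → tp G β {o} = 0) ∧
      (∀ β : ℝ, βc < β → 0 < tp G β {o}) ∧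
      ∀ β : ℝ, 0 ≤ β → β ≤ b → ∀ Λ : Finset V, AHP.OB 2 (tau G (pr β) Λ) B := by
  obtain ⟨D, hD⟩ : ∃ D : ℕ, D = (G.neighborFinset o).card := ⟨_, rfl⟩
  obtain ⟨S, hS⟩ : ∃ S : Set ℝ, S = {β : ℝ | 0 < β ∧ 0 < tp G β {o}} := ⟨_, rfl⟩
  have hmem : ∀ β : ℝ, β ∈ S ↔ 0 < β ∧ 0 < tp G β {o} := by
    intro β
    rw [hS]
    rfl
  -- high temperature
  obtain ⟨b₁, hb₁⟩ : ∃ b₁ : ℝ, b₁ = 1 / (4 * ((D : ℝ) + 1)) := ⟨_, rfl⟩
  have hD0 : (0 : ℝ) ≤ D := Nat.cast_nonneg _
  have hb₁pos : 0 < b₁ := by rw [hb₁]; positivity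
  have hhigh : ∀ β : ℝ, 0 ≤ β → β ≤ b₁ → tp G β {o} = 0 := by
    intro β hβ hβ1
    refine high G htr hβ o ?_
    have h1 : pr β / (2 - pr β) ≤ pr β :=
      div_le_self (pr_nonneg hβ) (by linarith [pr_le_one β])
    have h2 : pr β / (2 - pr β) ≤ 2 * b₁ := h1.trans (pr_le_two_mul.trans (by linarith))
    have h3 : pr β / (2 - pr β) * (D : ℝ) ≤ 2 * b₁ * D :=
      mul_le_mul_of_nonneg_right h2 hD0
    have h4 : 2 * b₁ * D < 1 := by
      rw [hb₁]
      rw [show 2 * (1 / (4 * ((D : ℝ) + 1))) * D = (2 * D) / (4 * (D + 1)) by ring,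
        div_lt_one (by positivity)]
      linarith
    rw [← hD]
    linarith
  have hne : S.Nonempty := by
    obtain ⟨β, hβ⟩ := hfin
    exact ⟨β, (hmem β).2 hβ⟩
  have hbdd : BddBelow S := ⟨0, fun β hβ => ((hmem β).1 hβ).1.le⟩
  obtain ⟨βc, hβc⟩ : ∃ βc : ℝ, βc = sInf S := ⟨_, rfl⟩
  have hge : b₁ ≤ βc := by
    rw [hβc]
    refine le_csInf hne fun β hβ => ?_
    by_contra hlt
    push Not at hlt
    have h1 := (hmem β).1 hβ
    rw [hhigh β h1.1.le hlt.le] at h1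
    exact lt_irrefl _ h1.2
  have hβcpos : 0 < βc := hb₁pos.trans_le hge
  have hlow : ∀ β : ℝ, 0 < β → β < βc → tp G β {o} = 0 := by
    intro β hβ hβ2
    by_contra h
    have h1 : β ∈ S := (hmem β).2 ⟨hβ, lt_of_le_of_ne (tp_nonneg G hβ.le _) (Ne.symm h)⟩
    have h2 := csInf_le hbdd h1
    rw [← hβc] at h2
    linarith
  have hup : ∀ β : ℝ, βc < β → 0 < tp G β {o} := by
    intro β hβ
    rw [hβc] at hβ
    obtain ⟨β₁, hβ₁, hlt⟩ := exists_lt_of_csInf_lt hne hβ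
    have h1 := (hmem β₁).1 hβ₁
    exact h1.2.trans_le (tp_mono_beta G h1.1.le hlt.le _)
  obtain ⟨B, hB, hOB⟩ := hOPB (βc / 2) (by linarith)
  obtain ⟨δ, hδ, hP⟩ := hPSS D B hB
  obtain ⟨β₀, hβ₀⟩ : ∃ β₀ : ℝ, β₀ = βc - min (δ / 2) (βc / 2) := ⟨_, rfl⟩
  have hmin0 : 0 < min (δ / 2) (βc / 2) := lt_min (by linarith) (by linarith)
  have h1 : βc / 2 ≤ β₀ := by
    have := min_le_right (δ / 2) (βc / 2)
    rw [hβ₀]
    linarith
  have h2 : β₀ < βc := by rw [hβ₀]; linarith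
  have h3 : βc < β₀ + δ := by
    have := min_le_left (δ / 2) (βc / 2)
    rw [hβ₀]
    linarith
  have hOB0 : ∀ Λ : Finset V, AHP.OB 2 (tau G (pr β₀) Λ) B := by
    refine hOB β₀ ((β₀ + βc) / 2) h1 (by linarith) (hlow _ (by linarith) (by linarith))
  have hprle : ∀ {a b : ℝ}, a ≤ b → pr a ≤ pr b := by
    intro a b hab
    unfold pr
    have : Real.exp (-2 * b) ≤ Real.exp (-2 * a) := Real.exp_le_exp.2 (by linarith)
    linarith
  refine ⟨βc, β₀ + δ, 4 * B, hβcpos, h3, hlow, hup, fun β hβ hβb Λ => ?_⟩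
  rcases le_total β β₀ with h | h
  · refine ob_mono (fun x y => tau_nonneg G (pr_nonneg hβ) (pr_le_one β) Λ x y)
      (fun x y => tau_mono G (pr_nonneg hβ) (hprle h) (pr_le_one β₀) (Finset.Subset.refl Λ) x y)
      (by linarith) (hOB0 Λ)
  · exact hP _ G (fun x => (card_nbr G htr o x).trans hD.ge) β₀ β (by linarith) h hβb hOB0 Λ

end FINM

open FINM in
theorem specFIN (hUNB : SpecUNB) (hOPB : SpecOPB) (hPSS : SpecPSS) (hATT : SpecATT) :
    SpecFIN := by
  intro m hm U H _ hH o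
  refine core (tree m □ H) (hATT m U H hH) o ?_ ?_ hPSS
  · by_contra hcon
    push Not at hcon
    have hm1 : (1 : ℝ) < m := by exact_mod_cast hm
    have hz : ∀ β : ℝ, 0 < β → tp (tree m □ H) β {o} = 0 := fun β hβ =>
      le_antisymm (hcon β hβ) (tp_nonneg _ hβ.le _)
    obtain ⟨β, hβdef⟩ : ∃ β : ℝ, β = (m : ℝ) / ((m : ℝ) - 1) + 1 := ⟨_, rfl⟩
    have hq : 0 < (m : ℝ) / ((m : ℝ) - 1) := div_pos (by linarith) (by linarith)
    have hβ : 0 < β := by rw [hβdef]; positivity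
    have h1 := hUNB m ⟨0, by omega⟩ ⟨1, by omega⟩ (by simp) U H hH o β (β + 1) hβ
      (by linarith) (hz _ (by linarith)) 0 {o.2} (fun _ => 1)
    unfold bn at h1
    rw [Finset.sum_singleton, Finset.sum_singleton, Finset.sum_singleton] at h1
    have h2 : pt0 (⟨0, by omega⟩ : Fin m) 0 = ((false, []) : W m) := rfl
    rw [h2, T2_self] at h1
    have h3 : (m : ℝ) / ((m : ℝ) - 1) * (1 / β) < 1 := by
      rw [mul_one_div, div_lt_one hβ, hβdef]
      linarith
    simp only [pow_zero, one_pow, mul_one] at h1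
    linarith
  · intro b₀ hb₀
    obtain ⟨B, hB, h⟩ := hOPB m hm U H hH b₀ hb₀
    exact ⟨B, hB, fun β β' h1 h2 h3 => h o β β' h1 h2 h3⟩

end RP

end MP8622
end

section
set_option autoImplicit false

open Classical Filter Topology SimpleGraph

namespace MP8622

namespace RP

namespace ENDM

open IsfM

/-- boundedness transported by an equivalence -/
theorem ob_trans {V V' : Type} (e : V ≃ V') {K : V → V → ℝ} {K' : V' → V' → ℝ} {B : ℝ}
    (hK : ∀ x y, K x y = K' (e x) (e y)) (h : AHP.OB 2 K' B) : AHP.OB 2 K B := by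
  intro S R v hv
  have h1 := h (S.map e.toEmbedding) (R.map e.toEmbedding) (fun y => v (e.symm y))
    (fun y => hv _)
  simp only [Finset.sum_map] at h1
  simp only [Equiv.coe_toEmbedding, Equiv.symm_apply_apply] at h1
  simp only [hK]
  exact h1

/-- the final statement for a general graph -/
theorem concl {V : Type} [Infinite V] (G : SimpleGraph V) [G.LocallyFinite]
    (htr : ∀ x y : V, ∃ g : V ≃ V, IsAut G g ∧ g x = y) (o : V)
    (βc b B : ℝ) (hβc : 0 < βc) (hb : βc < b)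
    (hlow : ∀ β : ℝ, 0 < β → β < βc → tp G β {o} = 0)
    (hup : ∀ β : ℝ, βc < β → 0 < tp G β {o})
    (hOB : ∀ β : ℝ, 0 ≤ β → β ≤ b → ∀ Λ : Finset V, AHP.OB 2 (tau G (pr β) Λ) B)
    (σ : ℝ → Finset V → Finset V → V → ℝ)
    (hσ : ∀ (h : ℝ) (Λ S : Finset V) (x : V),
          σ h Λ S x = if x ∈ Λ then (if x ∈ S then (1 : ℝ) else -1) else h)
    (E : ℝ → Finset V → Finset V → ℝ)
    (hE : ∀ (h : ℝ) (Λ S : Finset V),
          E h Λ S = ∑ x ∈ Λ, ∑ y ∈ G.neighborFinset x,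
            (if y ∈ Λ then (1 / 2 : ℝ) else 1) * σ h Λ S x * σ h Λ S y)
    (C : ℝ → ℝ → Finset V → Finset V → ℝ)
    (hC : ∀ (β h : ℝ) (A Λ : Finset V),
          C β h A Λ =
            (∑ S ∈ Λ.powerset, (∏ x ∈ A, σ h Λ S x) * Real.exp (β * E h Λ S)) /
              ∑ S ∈ Λ.powerset, Real.exp (β * E h Λ S)) :
    (∃ β : ℝ, 0 < β ∧ ∃ p : ℝ, 0 < p ∧
      Tendsto (fun Λ : Finset V => C β 1 {o} Λ) atTop (𝓝 p)) ∧
    ∃ ε : ℝ, 0 < ε ∧ ∀ β : ℝ,
      sInf {β : ℝ | 0 < β ∧ ∃ p : ℝ, 0 < p ∧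
        Tendsto (fun Λ : Finset V => C β 1 {o} Λ) atTop (𝓝 p)} < β →
      β < sInf {β : ℝ | 0 < β ∧ ∃ p : ℝ, 0 < p ∧
        Tendsto (fun Λ : Finset V => C β 1 {o} Λ) atTop (𝓝 p)} + ε →
      (∃ τ : V → V → ℝ, (∀ x, τ x x = 1) ∧
        (∀ x y, x ≠ y → Tendsto (fun Λ : Finset V => C β 0 {x, y} Λ) atTop (𝓝 (τ x y))) ∧
        ∃ B : ℝ, ∀ (S R : Finset V) (f : V → ℝ),
          ∑ x ∈ R, (∑ y ∈ S, τ x y * f y) ^ 2 ≤ B * ∑ y ∈ S, f y ^ 2) ∧
      ∃ A : Finset V, ∃ a p m : ℝ,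
        Tendsto (fun Λ : Finset V => C β 0 A Λ) atTop (𝓝 a) ∧
        Tendsto (fun Λ : Finset V => C β 1 A Λ) atTop (𝓝 p) ∧
        Tendsto (fun Λ : Finset V => C β (-1) A Λ) atTop (𝓝 m) ∧
        a ≠ (p + m) / 2 := by
  obtain ⟨hl0, hl1, hlm⟩ := specLink V G σ hσ E hE C hC
  have h1 : ∀ β : ℝ, 0 < β → β < βc → Tendsto (fun Λ : Finset V => C β 1 {o} Λ) atTop (𝓝 0) := by
    intro β hβ hβ2
    simp only [hl1]
    have := tendsto_Tp G hβ.le {o}
    rwa [hlow β hβ hβ2] at this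
  have h2 : ∀ β : ℝ, βc < β → ∃ p : ℝ, 0 < p ∧
      Tendsto (fun Λ : Finset V => C β 1 {o} Λ) atTop (𝓝 p) := by
    intro β hβ
    refine ⟨_, hup β hβ, ?_⟩
    simp only [hl1]
    exact tendsto_Tp G (hβc.le.trans hβ.le) {o}
  have hset : sInf {β : ℝ | 0 < β ∧ ∃ p : ℝ, 0 < p ∧
        Tendsto (fun Λ : Finset V => C β 1 {o} Λ) atTop (𝓝 p)} = βc := by
    apply le_antisymm
    · refine le_of_forall_gt_imp_ge_of_dense fun b' hb' => ?_
      exact csInf_le ⟨0, fun x hx => hx.1.le⟩ ⟨hβc.trans hb', h2 b' hb'⟩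
    · obtain ⟨p, hp, hl⟩ := h2 (βc + 1) (by linarith)
      refine le_csInf ⟨βc + 1, by linarith, p, hp, hl⟩ fun b' hb' => ?_
      by_contra hlt
      push Not at hlt
      obtain ⟨hb0, p', hp', hl'⟩ := hb'
      exact hp'.ne (tendsto_nhds_unique (h1 b' hb0 hlt) hl')
  rw [hset]
  refine ⟨⟨βc + 1, by linarith, h2 (βc + 1) (by linarith)⟩, b - βc, by linarith,
    fun β hβ hβ2 => ?_⟩
  have hβ0 : 0 < β := hβc.trans hβ
  have hβb : β ≤ b := by linarith
  have hob : AHP.OB 2 (fun x y => tf G β (symmDiff {x} {y})) B :=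
    AhM.ob_tf G one_lt_two hβ0.le fun Λ => hOB β hβ0.le hβb Λ
  refine ⟨⟨fun x y => if x = y then 1 else tf G β {x, y}, fun x => if_pos rfl, ?_, B, ?_⟩, ?_⟩
  · intro x y hxy
    simp only [if_neg hxy]
    refine (tendsto_Tf G hβ0.le {x, y}).congr' ?_
    filter_upwards [eventually_ge_atTop ({x, y} : Finset V)] with Λ hΛ
    exact (hl0 β {x, y} Λ hΛ).symm
  · intro S R f
    have hτ : ∀ x y : V, (if x = y then (1 : ℝ) else tf G β {x, y}) =
        tf G β (symmDiff {x} {y}) := by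
      intro x y
      by_cases hxy : x = y
      · rw [if_pos hxy, hxy]
        exact (FINM.T2_self G β y).symm
      · rw [if_neg hxy, IsFinM.symmDiff_pair hxy]
    have h3 := hob R S (fun y => |f y|) fun y => abs_nonneg _
    simp only [Real.rpow_two, sq_abs] at h3
    refine le_trans (Finset.sum_le_sum fun x _ => ?_) h3
    simp only [hτ]
    rw [← sq_abs (∑ y ∈ S, tf G β (symmDiff {x} {y}) * f y)]
    refine pow_le_pow_left₀ (abs_nonneg _) ?_ 2
    refine (Finset.abs_sum_le_sum_abs _ _).trans (Finset.sum_le_sum fun y _ => ?_)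
    rw [abs_mul, abs_of_nonneg (tf_nonneg G hβ0.le _)]
  · have hm := hup β hβ
    obtain ⟨x, hx, hlt'⟩ := AhM.exists_small G hob o (m := tp G β {o} ^ 2) (by positivity)
    have h4 := sq_le_tp G hβ0.le htr hx o
    refine ⟨{x, o}, tf G β {x, o}, tp G β {x, o}, tp G β {x, o}, ?_, ?_, ?_, ?_⟩
    · refine (tendsto_Tf G hβ0.le {x, o}).congr' ?_
      filter_upwards [eventually_ge_atTop ({x, o} : Finset V)] with Λ hΛ
      exact (hl0 β {x, o} Λ hΛ).symm
    · simp only [hl1]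
      exact tendsto_Tp G hβ0.le {x, o}
    · simp only [hlm, Finset.card_pair hx]
      norm_num
      exact tendsto_Tp G hβ0.le {x, o}
    · intro h5
      have h6 : (tp G β {x, o} + tp G β {x, o}) / 2 = tp G β {x, o} := by ring
      rw [h6] at h5
      linarith

end ENDM

open ENDM in
theorem specEND (hFIN : SpecFIN) (hATT : SpecATT) (hTRE : SpecTRE) (hTRN : SpecTRN) :
    SpecEND := by
  intro V X U G _ T H e k hk hT hreg hH o σ hσ E hE C hC
  obtain ⟨m, rfl⟩ : ∃ m : ℕ, k = m + 1 := ⟨k - 1, by omega⟩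
  have hm : 2 ≤ m := by omega
  obtain ⟨e', he'⟩ := hTRE X T m (by omega) hT hreg
  obtain ⟨f, hf⟩ : ∃ f : V ≃ W m × U, f = e.toEquiv.trans (e'.prodCongr (Equiv.refl U)) :=
    ⟨_, rfl⟩
  have hadj : ∀ x y, G.Adj x y ↔ (tree m □ H).Adj (f x) (f y) := by
    intro x y
    rw [← e.map_adj_iff, hf, SimpleGraph.boxProd_adj, SimpleGraph.boxProd_adj]
    show _ ↔ ((tree m).Adj (e' (e x).1) (e' (e y).1) ∧ (e x).2 = (e y).2 ∨
      H.Adj (e x).2 (e y).2 ∧ e' (e x).1 = e' (e y).1)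
    rw [← he', e'.injective.eq_iff]
  letI : (tree m □ H).LocallyFinite := fun v => by
    refine Set.Finite.fintype ?_
    have h1 : (tree m □ H).neighborSet v ⊆ f '' (G.neighborSet (f.symm v)) := by
      intro w hw
      refine ⟨f.symm w, ?_, by simp⟩
      rw [SimpleGraph.mem_neighborSet, hadj]
      simpa using hw
    exact ((Set.toFinite _).image f).subset h1
  obtain ⟨h1, h2⟩ := hTRN V (W m × U) f G (tree m □ H) hadj
  obtain ⟨βc, b, B, hβc, hb, hlow, hup, hOB⟩ := hFIN m hm U H hH (f o)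
  have htr' := hATT m U H hH
  have htr : ∀ x y : V, ∃ g : V ≃ V, IsAut G g ∧ g x = y := by
    intro x y
    obtain ⟨g, hg, hgx⟩ := htr' (f x) (f y)
    refine ⟨f.trans (g.trans f.symm), fun a c => ?_, ?_⟩
    · rw [hadj, hadj a c]
      show (tree m □ H).Adj (f (f.symm (g (f a)))) (f (f.symm (g (f c)))) ↔ _
      rw [Equiv.apply_symm_apply, Equiv.apply_symm_apply]
      exact hg _ _
    · show f.symm (g (f x)) = y
      rw [hgx, Equiv.symm_apply_apply]
  haveI : Infinite V := by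
    haveI : Nonempty (Fin m) := ⟨⟨0, by omega⟩⟩
    haveI : Nonempty U := ⟨(f o).2⟩
    haveI : Infinite (W m × U) := inferInstance
    exact Infinite.of_injective f.symm f.symm.injective
  exact concl G htr o βc b B hβc hb (fun β h3 h4 => by rw [h2]; exact hlow β h3 h4)
    (fun β h3 => by rw [h2]; exact hup β h3)
    (fun β h3 h4 Λ => ob_trans f (h1 (pr β) Λ) (hOB β h3 h4 _)) σ hσ E hE C hC

end RP

end MP8622
end
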