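import Pool.Agent.Lib.MP_8622f1_pr.RP.Spec
import Pool.Agent.Lib.MP_8622f1_pr.NU.FLD

set_option autoImplicit false

open Classical Filter Topology SimpleGraph

/-!
PSS: operator bounds pass to slightly larger inverse temperatures.
-/

namespace MP8622

namespace RP

namespace PSSM

variable {V : Type} {G : SimpleGraph V} [G.LocallyFinite]

theorem t_sub_le {β β' : ℝ} (h0 : 0 ≤ β) (h : β ≤ β') :
    pr β' / (2 - pr β') - pr β / (2 - pr β) ≤ 4 * (β' - β) := by
  have e1 : 2 - pr β = 1 + Real.exp (-2 * β) := by unfold pr; ring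
  have e2 : 2 - pr β' = 1 + Real.exp (-2 * β') := by unfold pr; ring
  have e3 : pr β = 1 - Real.exp (-2 * β) := rfl
  have e4 : pr β' = 1 - Real.exp (-2 * β') := rfl
  rw [e1, e2, e3, e4]
  set a := Real.exp (-2 * β) with ha
  set a' := Real.exp (-2 * β') with ha'
  have ha0 : 0 < a := Real.exp_pos _
  have ha0' : 0 < a' := Real.exp_pos _
  have ha1 : a ≤ 1 := by
    rw [ha, Real.exp_le_one_iff]
    linarith
  have haa : a' ≤ a := by
    rw [ha, ha', Real.exp_le_exp]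
    linarith
  have hq : a' = a * Real.exp (-2 * (β' - β)) := by
    rw [ha, ha', ← Real.exp_add]
    congr 1
    ring
  have hd : a - a' ≤ 2 * (β' - β) := by
    have h2 : 1 - 2 * (β' - β) ≤ Real.exp (-2 * (β' - β)) := by
      have := Real.add_one_le_exp (-2 * (β' - β))
      linarith
    have h3 : 0 ≤ 2 * (β' - β) := by linarith
    have h4 : a * (1 - 2 * (β' - β)) ≤ a * Real.exp (-2 * (β' - β)) :=
      mul_le_mul_of_nonneg_left h2 ha0.le
    have h5 : a * (2 * (β' - β)) ≤ 1 * (2 * (β' - β)) := mul_le_mul_of_nonneg_right ha1 h3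
    rw [hq]
    linarith
  have hfrac : (1 - a') / (1 + a') - (1 - a) / (1 + a) = 2 * (a - a') / ((1 + a) * (1 + a')) := by
    field_simp
    ring
  rw [hfrac, div_le_iff₀ (by positivity)]
  have h6 : 1 ≤ (1 + a) * (1 + a') := by nlinarith
  have h7 : 0 ≤ β' - β := by linarith
  have h8 : 4 * (β' - β) * 1 ≤ 4 * (β' - β) * ((1 + a) * (1 + a')) :=
    mul_le_mul_of_nonneg_left h6 (by linarith)
  linarith

theorem pr_mono' {β β' : ℝ} (h : β ≤ β') : pr β ≤ pr β' := by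
  unfold pr
  have : Real.exp (-2 * β') ≤ Real.exp (-2 * β) := by
    rw [Real.exp_le_exp]; linarith
  linarith

/-- the adjacency operator -/
noncomputable def nb (G : SimpleGraph V) [G.LocallyFinite] (Λ : Finset V) (w : V → ℝ) (u : V) :
    ℝ := ∑ v ∈ Λ, if s(u, v) ∈ ed0 G Λ then w v else 0

theorem nb_eq {Λ : Finset V} (w : V → ℝ) {u : V} (hu : u ∈ Λ) :
    nb G Λ w u = ∑ v ∈ (G.neighborFinset u).filter (fun v => v ∈ Λ), w v := by
  unfold nb
  rw [← Finset.sum_filter]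
  refine Finset.sum_congr ?_ fun _ _ => rfl
  ext v
  simp only [Finset.mem_filter, SimpleGraph.mem_neighborFinset, mem_ed0_mk]
  tauto

theorem nb_sq_le {D : ℕ} (hD : ∀ x, (G.neighborFinset x).card ≤ D) {Λ : Finset V}
    (w : V → ℝ) {u : V} (hu : u ∈ Λ) :
    nb G Λ w u ^ 2 ≤ D * ∑ v ∈ (G.neighborFinset u).filter (fun v => v ∈ Λ), w v ^ 2 := by
  rw [nb_eq w hu]
  refine (sq_sum_le_card_mul_sum_sq).trans ?_
  refine mul_le_mul_of_nonneg_right ?_ (Finset.sum_nonneg fun _ _ => sq_nonneg _)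
  exact_mod_cast (Finset.card_filter_le _ _).trans (hD u)

theorem sum_nb_sq_le {D : ℕ} (hD : ∀ x, (G.neighborFinset x).card ≤ D) (Λ : Finset V)
    (w : V → ℝ) : ∑ u ∈ Λ, nb G Λ w u ^ 2 ≤ (D : ℝ) ^ 2 * ∑ v ∈ Λ, w v ^ 2 := by
  calc ∑ u ∈ Λ, nb G Λ w u ^ 2
      ≤ ∑ u ∈ Λ, (D : ℝ) * ∑ v ∈ (G.neighborFinset u).filter (fun v => v ∈ Λ), w v ^ 2 :=
        Finset.sum_le_sum fun u hu => nb_sq_le hD w hu
    _ = (D : ℝ) * ∑ u ∈ Λ, ∑ v ∈ Λ, if G.Adj u v then w v ^ 2 else 0 := by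
        rw [Finset.mul_sum]
        refine Finset.sum_congr rfl fun u _ => ?_
        congr 1
        rw [← Finset.sum_filter]
        refine Finset.sum_congr ?_ fun _ _ => rfl
        ext v
        simp only [Finset.mem_filter, SimpleGraph.mem_neighborFinset]
        tauto
    _ = (D : ℝ) * ∑ v ∈ Λ, ∑ u ∈ Λ, if G.Adj u v then w v ^ 2 else 0 := by
        rw [Finset.sum_comm]
    _ ≤ (D : ℝ) * ∑ v ∈ Λ, (D : ℝ) * w v ^ 2 := by
        refine mul_le_mul_of_nonneg_left ?_ (Nat.cast_nonneg D)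
        refine Finset.sum_le_sum fun v _ => ?_
        rw [← Finset.sum_filter, Finset.sum_const, nsmul_eq_mul]
        refine mul_le_mul_of_nonneg_right ?_ (sq_nonneg _)
        have hc : (Λ.filter (fun u => G.Adj u v)).card ≤ (G.neighborFinset v).card := by
          refine Finset.card_le_card ?_
          intro u hu
          rw [SimpleGraph.mem_neighborFinset]
          exact (Finset.mem_filter.1 hu).2.symm
        exact_mod_cast hc.trans (hD v)
    _ = (D : ℝ) ^ 2 * ∑ v ∈ Λ, w v ^ 2 := by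
        rw [← Finset.mul_sum, ← mul_assoc, ← pow_two]

end PSSM

open PSSM

theorem specPSS (hGSL : SpecGSL) : SpecPSS := by
  intro D B hB
  refine ⟨1 / (8 * (B + 1) * (D + 1)), by positivity, ?_⟩
  intro V G _ hD β β' h0 hββ hδ hOB Λ
  have hp0 : 0 ≤ pr β := pr_nonneg h0
  have hp0' : 0 ≤ pr β' := pr_nonneg (h0.trans hββ)
  have hp1 : pr β ≤ 1 := pr_le_one β
  have hp1' : pr β' ≤ 1 := pr_le_one β'
  have hpp : pr β ≤ pr β' := pr_mono' hββ
  set s := pr β' / (2 - pr β') - pr β / (2 - pr β) with hs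
  have hs1 : s ≤ 4 * (1 / (8 * (B + 1) * (D + 1))) :=
    (t_sub_le h0 hββ).trans (by linarith)
  have hs0 : 0 ≤ s := by
    rw [hs, sub_nonneg, div_le_div_iff₀ (by linarith) (by linarith)]
    nlinarith
  have hsmall : 2 * s ^ 2 * B * (D : ℝ) ^ 2 ≤ 1 / 2 := by
    have hD0 : (0 : ℝ) ≤ D := Nat.cast_nonneg D
    have h1 : s * (2 * (B + 1) * (D + 1)) ≤ 1 := by
      have : s * (2 * (B + 1) * (D + 1)) ≤
          4 * (1 / (8 * (B + 1) * (D + 1))) * (2 * (B + 1) * (D + 1)) :=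
        mul_le_mul_of_nonneg_right hs1 (by positivity)
      refine this.trans ?_
      rw [show 4 * (1 / (8 * (B + 1) * ((D : ℝ) + 1))) * (2 * (B + 1) * (D + 1)) = 1 by
        field_simp; norm_num]
    have h2 : (s * (2 * (B + 1) * (D + 1))) ^ 2 ≤ 1 := by
      have h3 : 0 ≤ s * (2 * (B + 1) * (D + 1)) := by positivity
      nlinarith
    have h4 : B * (D : ℝ) ^ 2 ≤ (B + 1) ^ 2 * ((D : ℝ) + 1) ^ 2 := by
      have h5 : B ≤ (B + 1) ^ 2 := by nlinarith
      have h6 : (D : ℝ) ^ 2 ≤ ((D : ℝ) + 1) ^ 2 := by nlinarith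
      exact mul_le_mul h5 h6 (by positivity) (by positivity)
    have h7 : s ^ 2 * (B * (D : ℝ) ^ 2) ≤ s ^ 2 * ((B + 1) ^ 2 * ((D : ℝ) + 1) ^ 2) :=
      mul_le_mul_of_nonneg_left h4 (sq_nonneg s)
    nlinarith
  intro U W v hv
  simp only [Real.rpow_two]
  have hOB2 : ∀ (U W : Finset V) (v : V → ℝ), (∀ x, 0 ≤ v x) →
      ∑ x ∈ U, (∑ y ∈ W, tau G (pr β) Λ x y * v y) ^ 2 ≤ B * ∑ y ∈ W, v y ^ 2 := by
    intro U W v hv
    have := hOB Λ U W v hv
    simpa only [Real.rpow_two] using this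
  set w : V → ℝ := fun x => ∑ y ∈ W, tau G (pr β') Λ x y * v y with hw
  have hw0 : ∀ x, 0 ≤ w x := fun x =>
    Finset.sum_nonneg fun y _ => mul_nonneg (IsfM.tau_nonneg G hp0' hp1' Λ x y) (hv y)
  have hwout : ∀ x, x ∉ Λ → w x = 0 := by
    intro x hx
    refine Finset.sum_eq_zero fun y _ => ?_
    rw [tau, if_neg (fun h => hx h.1), zero_mul]
  -- pointwise
  have hpt : ∀ x ∈ Λ, ∀ y, tau G (pr β') Λ x y ≤ tau G (pr β) Λ x y +
      s * ∑ u ∈ Λ, tau G (pr β) Λ x u * ∑ z ∈ Λ, (if s(u, z) ∈ ed0 G Λ then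
        tau G (pr β') Λ z y else 0) := by
    intro x hx y
    by_cases hy : y ∈ Λ
    · have h := hGSL V (fun _ => pr β) (fun _ => pr β') (ed0 G Λ) Λ (fun _ => hp0)
        (fun _ => hpp) (fun _ => hp1')
        (fun e he => IsfM.not_isDiag_ed G (ed0_subset_ed G Λ he))
        (fun e he z hz => ((mem_ed0 G).1 he).2 z hz) x hx y hy
      unfold c2 at h
      rw [IsfM.tau_eq G hx hy, IsfM.tau_eq G hx hy]
      refine h.trans (le_of_eq ?_)
      congr 1
      rw [Finset.mul_sum]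
      refine Finset.sum_congr rfl fun u hu => ?_
      rw [Finset.mul_sum, Finset.mul_sum]
      refine Finset.sum_congr rfl fun z hz => ?_
      rw [IsfM.tau_eq G hx hu, IsfM.tau_eq G hz hy]
      split_ifs
      · ring
      · ring
    · rw [tau, if_neg (fun h => hy h.2)]
      refine add_nonneg (IsfM.tau_nonneg G hp0 hp1 Λ x y) (mul_nonneg hs0 ?_)
      refine Finset.sum_nonneg fun u _ => mul_nonneg (IsfM.tau_nonneg G hp0 hp1 Λ x u) ?_
      refine Finset.sum_nonneg fun z _ => ?_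
      split_ifs
      · exact IsfM.tau_nonneg G hp0' hp1' Λ z y
      · exact le_rfl
  have hwle : ∀ x ∈ Λ, w x ≤ ∑ y ∈ W, tau G (pr β) Λ x y * v y +
      s * ∑ u ∈ Λ, tau G (pr β) Λ x u * nb G Λ w u := by
    intro x hx
    calc w x ≤ ∑ y ∈ W, (tau G (pr β) Λ x y +
      s * ∑ u ∈ Λ, tau G (pr β) Λ x u * ∑ z ∈ Λ, (if s(u, z) ∈ ed0 G Λ then
        tau G (pr β') Λ z y else 0)) * v y :=
          Finset.sum_le_sum fun y _ => mul_le_mul_of_nonneg_right (hpt x hx y) (hv y)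
      _ = _ := by
          simp only [add_mul, Finset.sum_add_distrib]
          congr 1
          simp only [nb, hw]
          simp only [Finset.mul_sum, Finset.sum_mul]
          rw [Finset.sum_comm]
          refine Finset.sum_congr rfl fun u _ => ?_
          rw [Finset.sum_comm]
          refine Finset.sum_congr rfl fun z _ => ?_
          by_cases hz : s(u, z) ∈ ed0 G Λ
          · simp only [hz, if_true, Finset.mul_sum]
            refine Finset.sum_congr rfl fun y _ => ?_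
            ring
          · simp [hz]
  have hN : ∀ u, 0 ≤ nb G Λ w u := by
    intro u
    refine Finset.sum_nonneg fun z _ => ?_
    split_ifs
    · exact hw0 z
    · exact le_rfl
  have hmain : ∑ x ∈ Λ, w x ^ 2 ≤ 2 * (B * ∑ y ∈ W, v y ^ 2) +
      2 * s ^ 2 * (B * ((D : ℝ) ^ 2 * ∑ x ∈ Λ, w x ^ 2)) := by
    calc ∑ x ∈ Λ, w x ^ 2
        ≤ ∑ x ∈ Λ, (2 * (∑ y ∈ W, tau G (pr β) Λ x y * v y) ^ 2 +
          2 * s ^ 2 * (∑ u ∈ Λ, tau G (pr β) Λ x u * nb G Λ w u) ^ 2) := by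
          refine Finset.sum_le_sum fun x hx => ?_
          have h1 := hwle x hx
          have h2 := hw0 x
          have h3 : w x ^ 2 ≤ (∑ y ∈ W, tau G (pr β) Λ x y * v y +
            s * ∑ u ∈ Λ, tau G (pr β) Λ x u * nb G Λ w u) ^ 2 :=
            pow_le_pow_left₀ h2 h1 2
          refine h3.trans ?_
          have h4 := sq_nonneg ((∑ y ∈ W, tau G (pr β) Λ x y * v y) -
            s * ∑ u ∈ Λ, tau G (pr β) Λ x u * nb G Λ w u)
          nlinarith
      _ = 2 * ∑ x ∈ Λ, (∑ y ∈ W, tau G (pr β) Λ x y * v y) ^ 2 +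
          2 * s ^ 2 * ∑ x ∈ Λ, (∑ u ∈ Λ, tau G (pr β) Λ x u * nb G Λ w u) ^ 2 := by
          rw [Finset.sum_add_distrib, ← Finset.mul_sum, ← Finset.mul_sum]
      _ ≤ _ := by
          refine add_le_add ?_ ?_
          · exact mul_le_mul_of_nonneg_left (hOB2 Λ W v hv) (by norm_num)
          · refine mul_le_mul_of_nonneg_left ?_ (by positivity)
            refine (hOB2 Λ Λ _ hN).trans ?_
            exact mul_le_mul_of_nonneg_left (sum_nb_sq_le hD Λ w) hB.le
  have hS0 : 0 ≤ ∑ x ∈ Λ, w x ^ 2 := Finset.sum_nonneg fun _ _ => sq_nonneg _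
  have hfin : ∑ x ∈ Λ, w x ^ 2 ≤ 4 * B * ∑ y ∈ W, v y ^ 2 := by
    have h1 : 2 * s ^ 2 * (B * ((D : ℝ) ^ 2 * ∑ x ∈ Λ, w x ^ 2)) =
      (2 * s ^ 2 * B * (D : ℝ) ^ 2) * ∑ x ∈ Λ, w x ^ 2 := by ring
    have h2 : (2 * s ^ 2 * B * (D : ℝ) ^ 2) * ∑ x ∈ Λ, w x ^ 2 ≤ 1 / 2 * ∑ x ∈ Λ, w x ^ 2 :=
      mul_le_mul_of_nonneg_right hsmall hS0
    linarith
  refine le_trans ?_ hfin
  calc ∑ x ∈ U, (∑ y ∈ W, tau G (pr β') Λ x y * v y) ^ 2
      = ∑ x ∈ U, w x ^ 2 := rfl
    _ = ∑ x ∈ U.filter (fun x => x ∈ Λ), w x ^ 2 := by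
        rw [Finset.sum_filter]
        refine Finset.sum_congr rfl fun x _ => ?_
        split_ifs with h
        · rfl
        · rw [hwout x h]; norm_num
    _ ≤ ∑ x ∈ Λ, w x ^ 2 := by
        refine Finset.sum_le_sum_of_subset_of_nonneg ?_ fun _ _ _ => sq_nonneg _
        intro x hx
        exact (Finset.mem_filter.1 hx).2

end RP

end MP8622
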